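import Mathlib

set_option autoImplicit false
open Filter Topology Metric Bornology Set

namespace Pool.Agent.H716Z.SL

lemma re_cos (x y : ℝ) : (Complex.cos (x + y * Complex.I)).re = Real.cos x * Real.cosh y := by
  rw [Complex.cos_add_mul_I, ← Complex.ofReal_cos, ← Complex.ofReal_cosh, ← Complex.ofReal_sin,
    ← Complex.ofReal_sinh]
  simp only [Complex.sub_re, Complex.mul_re, Complex.ofReal_re, Complex.ofReal_im, Complex.I_re,
    Complex.I_im, Complex.mul_im]
  ring

/-- A bounded holomorphic function which is small on the boundary of its domain and along a curve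
going up to infinity tends to zero. -/
theorem barrier {Θ : ℂ → ℂ} {O O' : Set ℂ} (hO : IsOpen O) (hO' : IsClosed O') (hOO : O ⊆ O')
    (hd : ∀ z ∈ O', DifferentiableAt ℂ Θ z) {M : ℝ} (hM0 : 0 < M) (hM : ∀ z ∈ O', ‖Θ z‖ ≤ M)
    {ξ : ℝ → ℝ} (hξ : Continuous ξ)
    (hs : ∀ ε > 0, ∃ R : ℝ, ∀ z ∈ O', R < ‖z‖ → (z ∉ O ∨ (0 ≤ z.im ∧ z.re = ξ z.im)) → ‖Θ z‖ ≤ ε) :
    ∀ ε > 0, ∃ R : ℝ, ∀ z ∈ O', R < ‖z‖ → ‖Θ z‖ ≤ ε := by
  intro ε' hε'
  have hpi := Real.pi_pos
  set N : ℝ := Real.cosh (Real.pi / 2 * (3 * Real.pi / 2)) with hN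
  have hN0 : 0 < N := Real.cosh_pos _
  have hN1 : 1 ≤ N := Real.one_le_cosh _
  set lam : ℝ := N * (M / ε') with hlam
  have hlam0 : 0 < lam := by positivity
  have hfin : M * Real.exp (-(lam / N)) ≤ ε' := by
    have e : lam / N = M / ε' := by rw [hlam]; field_simp
    rw [e, Real.exp_neg, ← div_eq_mul_inv, div_le_iff₀ (Real.exp_pos _)]
    have h1 := Real.add_one_le_exp (M / ε')
    have h2 : ε' * (M / ε') = M := by field_simp
    nlinarith
  obtain ⟨R, hR⟩ := hs (M * Real.exp (-lam)) (by positivity)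
  have hsmall : M * Real.exp (-lam) ≤ ε' := by
    refine le_trans ?_ hfin
    gcongr
    exact div_le_self hlam0.le hN1
  set R₁ : ℝ := max (max R |ξ 0|) 1 with hR₁
  have hR1 : R ≤ R₁ := (le_max_left _ _).trans (le_max_left _ _)
  have hR2 : |ξ 0| ≤ R₁ := (le_max_right _ _).trans (le_max_left _ _)
  have hR3 : 1 ≤ R₁ := le_max_right _ _
  refine ⟨Real.exp 1 * R₁, fun z hz hzR => ?_⟩
  have he1 : 1 ≤ Real.exp 1 := Real.one_le_exp zero_le_one
  have hzR' : R₁ < ‖z‖ := by nlinarith
  by_cases hzO : z ∉ O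
  · exact (hR z hz (by linarith) (Or.inl hzO)).trans hsmall
  push Not at hzO
  have hz0 : 0 < ‖z‖ := by linarith
  set s₀ : ℝ := Real.log ‖z‖ with hs₀
  set G : ℂ → ℝ := fun ζ => (Complex.exp ζ).re - ξ (Complex.exp ζ).im with hG
  have hGc : Continuous G := by
    have h1 : Continuous fun ζ : ℂ => Complex.exp ζ := Complex.continuous_exp
    exact (Complex.continuous_re.comp h1).sub (hξ.comp (Complex.continuous_im.comp h1))
  have hbig : ∀ ζ : ℂ, |ζ.re - s₀| ≤ 1 → R₁ < Real.exp ζ.re := by
    intro ζ h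
    have h1 : s₀ - 1 ≤ ζ.re := by linarith [(abs_le.1 h).1]
    have h2 : Real.exp (s₀ - 1) ≤ Real.exp ζ.re := Real.exp_le_exp.2 h1
    rw [Real.exp_sub, hs₀, Real.exp_log hz0, div_le_iff₀ (Real.exp_pos 1)] at h2
    have := Real.exp_pos 1
    nlinarith
  have hGpos : ∀ ζ : ℂ, |ζ.re - s₀| ≤ 1 → Real.cos ζ.im = 1 → Real.sin ζ.im = 0 → 0 < G ζ := by
    intro ζ h h1 h2
    simp only [hG, Complex.exp_re, Complex.exp_im, h1, h2, mul_zero, mul_one]
    linarith [hbig ζ h, le_abs_self (ξ 0)]
  have hGneg : ∀ ζ : ℂ, |ζ.re - s₀| ≤ 1 → Real.cos ζ.im = -1 → Real.sin ζ.im = 0 → G ζ < 0 := by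
    intro ζ h h1 h2
    simp only [hG, Complex.exp_re, Complex.exp_im, h1, h2, mul_zero]
    linarith [hbig ζ h, neg_abs_le (ξ 0)]
  set W : Set ℂ := {ζ | |ζ.re - s₀| < 1 ∧ 0 < ζ.im ∧ ζ.im < 3 * Real.pi ∧
    0 < max (-G ζ) (ζ.im - Real.pi) ∧ 0 < max (G ζ) (2 * Real.pi - ζ.im) ∧ Complex.exp ζ ∈ O}
    with hW
  set W' : Set ℂ := {ζ | |ζ.re - s₀| ≤ 1 ∧ 0 ≤ ζ.im ∧ ζ.im ≤ 3 * Real.pi ∧
    0 ≤ max (-G ζ) (ζ.im - Real.pi) ∧ 0 ≤ max (G ζ) (2 * Real.pi - ζ.im) ∧ Complex.exp ζ ∈ O'}
    with hW'
  have c1 : Continuous fun ζ : ℂ => |ζ.re - s₀| := by fun_prop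
  have c2 : Continuous fun ζ : ℂ => ζ.im := Complex.continuous_im
  have c3 : Continuous fun ζ : ℂ => max (-G ζ) (ζ.im - Real.pi) := by fun_prop
  have c4 : Continuous fun ζ : ℂ => max (G ζ) (2 * Real.pi - ζ.im) := by fun_prop
  have hWo : IsOpen W :=
    (isOpen_lt c1 continuous_const).inter <| (isOpen_lt continuous_const c2).inter <|
      (isOpen_lt c2 continuous_const).inter <| (isOpen_lt continuous_const c3).inter <|
      (isOpen_lt continuous_const c4).inter (hO.preimage Complex.continuous_exp)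
  have hW'c : IsClosed W' :=
    (isClosed_le c1 continuous_const).inter <| (isClosed_le continuous_const c2).inter <|
      (isClosed_le c2 continuous_const).inter <| (isClosed_le continuous_const c3).inter <|
      (isClosed_le continuous_const c4).inter (hO'.preimage Complex.continuous_exp)
  have hWW : closure W ⊆ W' := closure_minimal
    (fun ζ h => ⟨h.1.le, h.2.1.le, h.2.2.1.le, h.2.2.2.1.le, h.2.2.2.2.1.le, hOO h.2.2.2.2.2⟩) hW'c
  have hWb : IsBounded W := by
    refine isBounded_iff_forall_norm_le.2 ⟨|s₀| + 1 + 3 * Real.pi, fun ζ h => ?_⟩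
    have h1 := Complex.norm_le_abs_re_add_abs_im ζ
    have h2 : |ζ.re| ≤ |ζ.re - s₀| + |s₀| := by
      have := abs_add_le (ζ.re - s₀) s₀
      rwa [sub_add_cancel] at this
    rw [abs_of_pos h.2.1] at h1
    linarith [h.1, h.2.2.1]
  set H : ℂ → ℂ := fun ζ => ((lam / N : ℝ) : ℂ) *
    Complex.cos (((Real.pi / 2 : ℝ) : ℂ) * (ζ - (s₀ + (3 * Real.pi / 2 : ℝ) * Complex.I))) with hH
  have hHre : ∀ ζ : ℂ, (H ζ).re = lam / N * (Real.cos (Real.pi / 2 * (ζ.re - s₀)) *
      Real.cosh (Real.pi / 2 * (ζ.im - 3 * Real.pi / 2))) := by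
    intro ζ
    rw [← re_cos, hH]
    simp only [Complex.re_ofReal_mul]
    congr 3
    apply Complex.ext <;> simp
  have hHd : Differentiable ℂ H := by
    rw [hH]; fun_prop
  set Φ : ℂ → ℂ := fun ζ => Θ (Complex.exp ζ) * Complex.exp (H ζ) with hΦ
  have hΦn : ∀ ζ, ‖Φ ζ‖ = ‖Θ (Complex.exp ζ)‖ * Real.exp (H ζ).re := by
    intro ζ
    simp only [hΦ, norm_mul, Complex.norm_exp]
  have hΦd : DiffContOnCl ℂ Φ W := by
    apply DifferentiableOn.diffContOnCl
    intro ζ hζ
    exact (((hd _ (hWW hζ).2.2.2.2.2).comp ζ Complex.differentiableAt_exp).mul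
      (hHd ζ).cexp).differentiableWithinAt
  have hfr : ∀ ζ ∈ frontier W, ‖Φ ζ‖ ≤ M := by
    intro ζ hζ
    rw [hWo.frontier_eq] at hζ
    obtain ⟨h1, h2, h3, h4, h5, h6⟩ := hWW hζ.1
    have hnW := hζ.2
    rw [hΦn]
    by_cases e1 : |ζ.re - s₀| < 1
    · have hle : (H ζ).re ≤ lam := by
        rw [hHre]
        have k1 : Real.cosh (Real.pi / 2 * (ζ.im - 3 * Real.pi / 2)) ≤ N := by
          rw [hN, Real.cosh_le_cosh, abs_mul, abs_mul]
          apply mul_le_mul_of_nonneg_left _ (abs_nonneg _)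
          rw [abs_of_pos (by positivity : 0 < 3 * Real.pi / 2), abs_le]
          constructor <;> linarith
        have k2 := Real.cos_le_one (Real.pi / 2 * (ζ.re - s₀))
        have k3 := Real.cosh_pos (Real.pi / 2 * (ζ.im - 3 * Real.pi / 2))
        have k4 : Real.cos (Real.pi / 2 * (ζ.re - s₀)) *
            Real.cosh (Real.pi / 2 * (ζ.im - 3 * Real.pi / 2)) ≤ N := by nlinarith
        calc _ ≤ lam / N * N := mul_le_mul_of_nonneg_left k4 (by positivity)
          _ = lam := by field_simp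
      have hsm : ‖Θ (Complex.exp ζ)‖ ≤ M * Real.exp (-lam) := by
        refine hR _ h6 (by rw [Complex.norm_exp]; linarith [hbig ζ h1]) ?_
        by_cases e6 : Complex.exp ζ ∈ O
        swap
        · exact Or.inl e6
        right
        have e2 : 0 < ζ.im := by
          refine lt_of_le_of_ne h2 fun h => ?_
          have := hGpos ζ h1 (by rw [← h]; simp) (by rw [← h]; simp)
          rcases le_max_iff.1 h4 with h7 | h7 <;> linarith
        have e3 : ζ.im < 3 * Real.pi := by
          refine lt_of_le_of_ne h3 fun h => ?_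
          have e : ζ.im = Real.pi + 2 * Real.pi := by linarith
          have := hGneg ζ h1 (by rw [e, Real.cos_add_two_pi]; simp)
            (by rw [e, Real.sin_add_two_pi]; simp)
          rcases le_max_iff.1 h5 with h7 | h7 <;> linarith
        have e45 : G ζ = 0 ∧ 0 ≤ Real.sin ζ.im := by
          by_cases e4 : 0 < max (-G ζ) (ζ.im - Real.pi)
          · have e5 : ¬ 0 < max (G ζ) (2 * Real.pi - ζ.im) :=
              fun e5 => hnW ⟨e1, e2, e3, e4, e5, e6⟩
            rw [not_lt, max_le_iff] at e5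
            constructor
            · rcases le_max_iff.1 h5 with h7 | h7
              · linarith [e5.1]
              · have e : ζ.im = 2 * Real.pi := by linarith [e5.2]
                have := hGpos ζ h1 (by rw [e]; simp) (by rw [e]; simp)
                linarith [e5.1]
            · rw [← Real.sin_sub_two_pi]
              exact Real.sin_nonneg_of_nonneg_of_le_pi (by linarith [e5.2]) (by linarith)
          · rw [not_lt, max_le_iff] at e4
            constructor
            · rcases le_max_iff.1 h4 with h7 | h7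
              · linarith [e4.1]
              · have e : ζ.im = Real.pi := by linarith [e4.2]
                have := hGneg ζ h1 (by rw [e]; simp) (by rw [e]; simp)
                linarith [e4.1]
            · exact Real.sin_nonneg_of_nonneg_of_le_pi h2 (by linarith [e4.2])
        refine ⟨?_, sub_eq_zero.1 e45.1⟩
        rw [Complex.exp_im]
        exact mul_nonneg (Real.exp_pos _).le e45.2
      calc _ ≤ M * Real.exp (-lam) * Real.exp lam := by gcongr
        _ = M := by rw [mul_assoc, ← Real.exp_add]; simp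
    · have e2 : |ζ.re - s₀| = 1 := le_antisymm h1 (not_lt.1 e1)
      have e3 : Real.cos (Real.pi / 2 * (ζ.re - s₀)) = 0 := by
        rcases (abs_eq zero_le_one).1 e2 with h | h
        · rw [h]; simp
        · rw [h]; simp
      rw [hHre, e3]
      simpa using hM _ h6
  have key : ∀ ζ ∈ W, ζ.re = s₀ → Complex.exp ζ = z → ‖Θ z‖ ≤ ε' := by
    intro ζ hζ h1 h2
    have h3 := Complex.norm_le_of_forall_mem_frontier_norm_le hWb hΦd hfr (subset_closure hζ)
    rw [hΦn, h2, hHre, h1, sub_self, mul_zero, Real.cos_zero, one_mul] at h3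
    have h4 : Real.exp (lam / N) ≤
        Real.exp (lam / N * Real.cosh (Real.pi / 2 * (ζ.im - 3 * Real.pi / 2))) := by
      rw [Real.exp_le_exp]
      exact le_mul_of_one_le_right (by positivity) (Real.one_le_cosh _)
    have h5 : ‖Θ z‖ * Real.exp (lam / N) ≤ M :=
      (mul_le_mul_of_nonneg_left h4 (norm_nonneg _)).trans h3
    refine le_trans ?_ hfin
    rw [Real.exp_neg, ← div_eq_mul_inv, le_div_iff₀ (Real.exp_pos _)]
    exact h5
  have hz' : z ≠ 0 := norm_pos_iff.1 hz0
  have l1 : Complex.exp (Complex.log z) = z := Complex.exp_log hz'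
  have l2 : Complex.exp (Complex.log z + 2 * Real.pi * Complex.I) = z := by
    rw [Complex.exp_add, Complex.exp_two_pi_mul_I, mul_one, l1]
  have l3 : (Complex.log z).re = s₀ := Complex.log_re z
  have l4 : (Complex.log z + 2 * Real.pi * Complex.I).re = s₀ := by simp [l3]
  have l5 : (Complex.log z + 2 * Real.pi * Complex.I).im = (Complex.log z).im + 2 * Real.pi := by
    simp
  have l6 : -Real.pi < (Complex.log z).im := Complex.neg_pi_lt_log_im z
  have l7 : (Complex.log z).im ≤ Real.pi := Complex.log_im_le_pi z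
  have l8 : G (Complex.log z + 2 * Real.pi * Complex.I) = G (Complex.log z) := by
    simp only [hG, l1, l2]
  have l9 : |(Complex.log z).re - s₀| ≤ 1 := by rw [l3]; simp
  rcases lt_or_ge (Complex.log z).im 0 with h | h
  · refine key _ ⟨by rw [l4]; simp, by rw [l5]; linarith, by rw [l5]; linarith,
      lt_max_of_lt_right (by rw [l5]; linarith), lt_max_of_lt_right (by rw [l5]; linarith),
      by rw [l2]; exact hzO⟩ l4 l2
  · rcases lt_trichotomy (G (Complex.log z)) 0 with h1 | h1 | h1
    · have h2 : 0 < (Complex.log z).im := by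
        refine lt_of_le_of_ne h fun h3 => ?_
        have := hGpos _ l9 (by rw [← h3]; simp) (by rw [← h3]; simp)
        linarith
      exact key _ ⟨by rw [l3]; simp, h2, by linarith, lt_max_of_lt_left (by linarith),
        lt_max_of_lt_right (by linarith), by rw [l1]; exact hzO⟩ l3 l1
    · refine (hR z hz (by linarith) (Or.inr ⟨?_, ?_⟩)).trans hsmall
      · rw [← l1, Complex.exp_im]
        exact mul_nonneg (Real.exp_pos _).le (Real.sin_nonneg_of_nonneg_of_le_pi h l7)
      · simp only [hG, l1] at h1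
        exact sub_eq_zero.1 h1
    · have h2 : (Complex.log z).im < Real.pi := by
        refine lt_of_le_of_ne l7 fun h3 => ?_
        have := hGneg _ l9 (by rw [h3]; simp) (by rw [h3]; simp)
        linarith
      exact key _ ⟨by rw [l4]; simp, by rw [l5]; linarith, by rw [l5]; linarith,
        lt_max_of_lt_right (by rw [l5]; linarith), lt_max_of_lt_left (by rw [l8]; exact h1),
        by rw [l2]; exact hzO⟩ l4 l2

/-- A continuous curve through a chain of points going up. -/
lemma exists_curve (u : ℕ → ℂ) (h0 : 0 ≤ (u 0).im)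
    (hu : ∀ j, ‖u (j + 1) - u j - 2 * Real.pi * Complex.I‖ ≤ 1 / 2) :
    ∃ ξ : ℝ → ℝ, Continuous ξ ∧ ∃ R₀ : ℝ, ∀ z : ℂ, R₀ < ‖z‖ → 0 ≤ z.im → z.re = ξ z.im →
      ∃ j, ‖z - u j‖ ≤ 14 := by
  have hx : ∀ j, |(u (j + 1)).re - (u j).re| ≤ 1 / 2 := by
    intro j
    have := (Complex.abs_re_le_norm _).trans (hu j)
    simpa using this
  have hy : ∀ j, 5.5 ≤ (u (j + 1)).im - (u j).im ∧ (u (j + 1)).im - (u j).im ≤ 7 := by
    intro j
    have h1 := (Complex.abs_im_le_norm _).trans (hu j)
    have e : (u (j + 1) - u j - 2 * Real.pi * Complex.I).im =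
        (u (j + 1)).im - (u j).im - 2 * Real.pi := by simp
    rw [e, abs_le] at h1
    constructor <;> linarith [h1.1, h1.2, Real.pi_gt_three, Real.pi_lt_d2]
  have hxy : ∀ i k, |(u (i + k)).re - (u i).re| ≤ (u (i + k)).im - (u i).im := by
    intro i k
    induction k with
    | zero => simp
    | succ k ih =>
      have h1 := hx (i + k)
      have h2 := hy (i + k)
      rw [← add_assoc]
      rw [abs_le] at h1 ih ⊢
      constructor <;> linarith [h1.1, h1.2, ih.1, ih.2, h2.1]
  have hxy' : ∀ i j, |(u j).re - (u i).re| ≤ |(u j).im - (u i).im| := by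
    intro i j
    rcases le_total i j with h | h
    · obtain ⟨k, rfl⟩ := Nat.exists_eq_add_of_le h
      exact (hxy i k).trans (le_abs_self _)
    · obtain ⟨k, rfl⟩ := Nat.exists_eq_add_of_le h
      rw [abs_sub_comm, abs_sub_comm (u j).im]
      exact (hxy j k).trans (le_abs_self _)
  have hlow : ∀ (y : ℝ) i j, (u i).re - |y - (u i).im| ≤ (u j).re + |y - (u j).im| := by
    intro y i j
    have h1 := hxy' j i
    have h2 : |(u i).im - (u j).im| ≤ |y - (u j).im| + |y - (u i).im| := by
      have := abs_sub_le (u i).im y (u j).im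
      rw [abs_sub_comm (u i).im y] at this
      linarith
    linarith [le_abs_self ((u i).re - (u j).re)]
  set ξ : ℝ → ℝ := fun y => ⨅ j, ((u j).re + |y - (u j).im|) with hξ
  have hbdd : ∀ y : ℝ, BddBelow (range fun j => (u j).re + |y - (u j).im|) := fun y =>
    ⟨(u 0).re - |y - (u 0).im|, by rintro _ ⟨j, rfl⟩; exact hlow y 0 j⟩
  have hup : ∀ y j, ξ y ≤ (u j).re + |y - (u j).im| := fun y j => ciInf_le (hbdd y) j
  have hdown : ∀ y i, (u i).re - |y - (u i).im| ≤ ξ y := fun y i => le_ciInf (hlow y i)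
  have hlip : LipschitzWith 1 ξ := by
    apply LipschitzWith.of_le_add
    intro y y'
    rw [← sub_le_iff_le_add]
    apply le_ciInf
    intro j
    have h1 := hup y j
    have h2 := abs_sub_le y y' (u j).im
    rw [Real.dist_eq]
    linarith
  refine ⟨ξ, hlip.continuous, |(u 0).re| + 2 * (u 0).im, fun z hz h1 h2 => ?_⟩
  have hy0 : (u 0).im ≤ z.im := by
    by_contra hc
    push Not at hc
    have h3 := hup z.im 0
    have h4 := hdown z.im 0
    rw [← h2, abs_of_neg (by linarith)] at h3 h4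
    have h5 := Complex.norm_le_abs_re_add_abs_im z
    rw [abs_of_nonneg h1] at h5
    have h6 : |z.re| ≤ |(u 0).re| + (u 0).im := by
      rw [abs_le]
      constructor <;> linarith [le_abs_self (u 0).re, neg_abs_le (u 0).re]
    linarith
  have hgrow : ∀ j : ℕ, (u 0).im + j ≤ (u j).im := by
    intro j
    induction j with
    | zero => simp
    | succ j ih => push_cast; linarith [(hy j).1]
  have hex : ∃ j, z.im < (u (j + 1)).im := by
    obtain ⟨j, hj⟩ := exists_nat_gt z.im
    refine ⟨j, ?_⟩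
    have := hgrow (j + 1)
    push_cast at this
    linarith
  classical
  set j := Nat.find hex with hj
  have h3 : z.im < (u (j + 1)).im := Nat.find_spec hex
  have h4 : (u j).im ≤ z.im := by
    rcases Nat.eq_zero_or_pos j with h | h
    · rw [h]; exact hy0
    · have := Nat.find_min hex (m := j - 1) (by omega)
      rw [Nat.sub_add_cancel h] at this
      exact not_lt.1 this
  refine ⟨j, ?_⟩
  have h5 : |z.im - (u j).im| ≤ 7 := by
    rw [abs_of_nonneg (by linarith)]; linarith [(hy j).2]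
  have h6 := hup z.im j
  have h7 := hdown z.im j
  rw [← h2] at h6 h7
  have h8 := Complex.norm_le_abs_re_add_abs_im (z - u j)
  rw [Complex.sub_re, Complex.sub_im] at h8
  have h9 : |z.re - (u j).re| ≤ 7 := by
    rw [abs_le]; constructor <;> linarith
  linarith

end Pool.Agent.H716Z.SL
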