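import Mathlib

set_option autoImplicit false
open Filter Topology Metric Bornology Set

namespace Pool.Agent.H716Z.SL

/-- `g` is analytic on the open set `D`, and every point outside `D` is a pole. -/
structure Mer (g : ℂ → ℂ) (D : Set ℂ) : Prop where
  op : IsOpen D
  an : ∀ w ∈ D, AnalyticAt ℂ g w
  ev : ∀ w, w ∉ D → ∀ᶠ v in 𝓝[≠] w, v ∈ D
  pole : ∀ w, w ∉ D → Tendsto g (𝓝[≠] w) (cobounded ℂ)

open Classical in
/-- The function `1 / (g - β)`, with value `0` at the poles. -/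
noncomputable def rinv (g : ℂ → ℂ) (D : Set ℂ) (β : ℂ) (v : ℂ) : ℂ :=
  if v ∈ D then (g v - β)⁻¹ else 0

lemma rinv_of_mem {g : ℂ → ℂ} {D : Set ℂ} {β v : ℂ} (h : v ∈ D) : rinv g D β v = (g v - β)⁻¹ := by
  unfold rinv; rw [if_pos h]

lemma rinv_of_not_mem {g : ℂ → ℂ} {D : Set ℂ} {β v : ℂ} (h : v ∉ D) : rinv g D β v = 0 := by
  unfold rinv; rw [if_neg h]

lemma Mer.ev_mem {g : ℂ → ℂ} {D : Set ℂ} (hg : Mer g D) (w : ℂ) : ∀ᶠ v in 𝓝[≠] w, v ∈ D := by
  by_cases h : w ∈ D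
  · exact mem_nhdsWithin_of_mem_nhds (hg.op.mem_nhds h)
  · exact hg.ev w h

lemma Mer.ev_large {g : ℂ → ℂ} {D : Set ℂ} (hg : Mer g D) {w : ℂ} (h : w ∉ D) (β : ℂ) (M : ℝ) :
    ∀ᶠ v in 𝓝[≠] w, M < ‖g v - β‖ := by
  have h1 := (tendsto_norm_atTop_iff_cobounded.2 (hg.pole w h)).eventually_gt_atTop (M + ‖β‖)
  filter_upwards [h1] with v hv
  have := norm_sub_norm_le (g v) β
  linarith

lemma Mer.rinv_an_of_mem {g : ℂ → ℂ} {D : Set ℂ} (hg : Mer g D) {β w : ℂ} (h : w ∈ D)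
    (hne : g w ≠ β) : AnalyticAt ℂ (rinv g D β) w := by
  have h1 : AnalyticAt ℂ (fun v => (g v - β)⁻¹) w :=
    ((hg.an w h).sub analyticAt_const).inv (sub_ne_zero.2 hne)
  refine h1.congr ?_
  filter_upwards [hg.op.mem_nhds h] with v hv
  rw [rinv_of_mem hv]

lemma Mer.rinv_an_of_not_mem {g : ℂ → ℂ} {D : Set ℂ} (hg : Mer g D) {w : ℂ} (β : ℂ) (h : w ∉ D) :
    AnalyticAt ℂ (rinv g D β) w := by
  apply Complex.analyticAt_of_differentiable_on_punctured_nhds_of_continuousAt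
  · filter_upwards [hg.ev w h, hg.ev_large h β 0] with v hv hv2
    refine (hg.rinv_an_of_mem hv ?_).differentiableAt
    intro he
    rw [he, sub_self, norm_zero] at hv2
    exact lt_irrefl _ hv2
  · rw [← continuousWithinAt_compl_self, ContinuousWithinAt, rinv_of_not_mem h]
    rw [Metric.tendsto_nhds]
    intro ε hε
    filter_upwards [hg.ev w h, hg.ev_large h β ε⁻¹] with v hv hv2
    rw [rinv_of_mem hv, dist_zero_right, norm_inv]
    exact inv_lt_of_inv_lt₀ hε hv2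

lemma Mer.rinv_an {g : ℂ → ℂ} {D : Set ℂ} (hg : Mer g D) {w β : ℂ} (h : w ∈ D → g w ≠ β) :
    AnalyticAt ℂ (rinv g D β) w := by
  by_cases hw : w ∈ D
  · exact hg.rinv_an_of_mem hw (h hw)
  · exact hg.rinv_an_of_not_mem β hw

lemma norm_rinv_le {g : ℂ → ℂ} {D : Set ℂ} {w β : ℂ} {δ : ℝ} (hδ : 0 < δ)
    (h : w ∈ D → δ ≤ ‖g w - β‖) : ‖rinv g D β w‖ ≤ δ⁻¹ := by
  by_cases hw : w ∈ D
  · rw [rinv_of_mem hw, norm_inv]
    exact inv_anti₀ hδ (h hw)
  · rw [rinv_of_not_mem hw, norm_zero]; positivity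

/-- Lipschitz estimate at the centre of a disc. -/
lemma lip_center {h : ℂ → ℂ} {c : ℂ} {r M : ℝ} (hd : DifferentiableOn ℂ h (ball c r))
    (hM : ∀ v ∈ ball c r, ‖h v‖ ≤ M) {v : ℂ} (hv : v ∈ ball c r) :
    ‖h v - h c‖ ≤ 2 * M / r * ‖v - c‖ := by
  have hr : 0 < r := lt_of_le_of_lt dist_nonneg hv
  have := Complex.dist_le_div_mul_dist_of_mapsTo_ball (R₂ := 2 * M) hd (fun u hu => by
    rw [mem_closedBall, dist_eq_norm]
    have h1 := hM u hu
    have h2 := hM c (mem_ball_self hr)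
    have := norm_sub_le (h u) (h c)
    linarith) hv
  rwa [dist_eq_norm, dist_eq_norm] at this

lemma deriv_center {h : ℂ → ℂ} {c : ℂ} {r M : ℝ} (hr : 0 < r) (hd : DifferentiableOn ℂ h (ball c r))
    (hM : ∀ v ∈ ball c r, ‖h v‖ ≤ M) : ‖deriv h c‖ ≤ 2 * M / r :=
  Complex.norm_deriv_le_div_of_mapsTo_ball (R₂ := 2 * M) hd (fun u hu => by
    rw [mem_closedBall, dist_eq_norm]
    have h1 := hM u hu
    have h2 := hM c (mem_ball_self hr)
    have := norm_sub_le (h u) (h c)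
    linarith) hr

/-- Uniform local lemma: where the derivative is bounded on the set where `g` is near `β`, the
function cannot leave a neighbourhood of `β` quickly. -/
lemma Mer.stay {g : ℂ → ℂ} {D : Set ℂ} (hg : Mer g D) {β w : ℂ} {δ A r : ℝ} (hA : 0 ≤ A)
    (hb : ∀ v ∈ ball w r, v ∈ D → ‖g v - β‖ < δ → ‖deriv g v‖ ≤ A) (hw : w ∈ D)
    (hwr : ‖g w - β‖ + A * r < δ) :
    ∀ v ∈ ball w r, v ∈ D ∧ ‖g v - g w‖ ≤ A * ‖v - w‖ ∧ ‖g v - β‖ < δ := by
  set W : Set ℂ := {v | v ∈ D ∧ ‖g v - β‖ < δ} with hW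
  have hWo : IsOpen W := by
    rw [isOpen_iff_mem_nhds]
    rintro v ⟨hv1, hv2⟩
    have h1 : ∀ᶠ u in 𝓝 v, ‖g u - β‖ < δ :=
      ((hg.an v hv1).continuousAt.sub continuousAt_const).norm.eventually_lt
        continuousAt_const hv2
    filter_upwards [hg.op.mem_nhds hv1, h1] with u hu1 hu2
    exact ⟨hu1, hu2⟩
  have lip : ∀ ρ, ρ ≤ r → ball w ρ ⊆ W → ∀ v ∈ ball w ρ, ‖g v - g w‖ ≤ A * ‖v - w‖ := by
    intro ρ hρ hsub v hv
    have hρ0 : 0 < ρ := lt_of_le_of_lt dist_nonneg hv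
    refine (convex_ball w ρ).norm_image_sub_le_of_norm_deriv_le (𝕜 := ℂ) (f := g) ?_ ?_
      (mem_ball_self hρ0) hv
    · intro u hu
      exact (hg.an u (hsub hu).1).differentiableAt
    · intro u hu
      exact hb u (ball_subset_ball hρ hu) (hsub hu).1 (hsub hu).2
  have key : ball w r ⊆ W := by
    by_contra hc
    obtain ⟨q, hq1, hq2⟩ := not_subset.1 hc
    have hr0 : 0 < r := lt_of_le_of_lt dist_nonneg hq1
    have hne : (Wᶜ).Nonempty := ⟨q, hq2⟩
    obtain ⟨p, hp1, hp2⟩ := hWo.isClosed_compl.exists_infDist_eq_dist hne w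
    have hwW : w ∈ W := ⟨hw, by nlinarith⟩
    set ρ := dist w p with hρ
    have hρr : ρ < r := by
      rw [← hp2]
      refine lt_of_le_of_lt (infDist_le_dist_of_mem hq2) ?_
      rw [dist_comm]; exact hq1
    have hρ0 : 0 < ρ := by
      rw [hρ, dist_pos]
      rintro rfl
      exact hp1 hwW
    have hsub : ball w ρ ⊆ W := by
      intro v hv
      by_contra hvW
      have := infDist_le_dist_of_mem (x := w) (show v ∈ Wᶜ from hvW)
      rw [hp2, dist_comm w v] at this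
      exact absurd hv (by rw [mem_ball]; linarith)
    have hbd : ∀ v ∈ ball w ρ, ‖g v - β‖ ≤ ‖g w - β‖ + A * r := by
      intro v hv
      have h1 := lip ρ hρr.le hsub v hv
      have h2 : ‖v - w‖ ≤ r := by
        rw [mem_ball, dist_eq_norm] at hv; linarith
      have h3 : ‖g v - β‖ ≤ ‖g v - g w‖ + ‖g w - β‖ := norm_sub_le_norm_sub_add_norm_sub _ _ _
      nlinarith
    have hpc : p ∈ closure (ball w ρ) := by
      rw [closure_ball w hρ0.ne', mem_closedBall, dist_comm]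
    have hnb : (𝓝[ball w ρ] p).NeBot := mem_closure_iff_nhdsWithin_neBot.1 hpc
    by_cases hpD : p ∈ D
    · apply hp1
      refine ⟨hpD, lt_of_le_of_lt ?_ hwr⟩
      have hc2 : Tendsto (fun u => ‖g u - β‖) (𝓝[ball w ρ] p) (𝓝 ‖g p - β‖) :=
        ((hg.an p hpD).continuousAt.sub continuousAt_const).norm.continuousWithinAt
      exact le_of_tendsto hc2 (eventually_nhdsWithin_of_forall hbd)
    · have hle : 𝓝[ball w ρ] p ≤ 𝓝[≠] p := by
        apply nhdsWithin_mono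
        intro v hv hvp
        rw [mem_singleton_iff] at hvp
        rw [hvp, mem_ball, dist_comm] at hv
        exact lt_irrefl _ hv
      have h1 := (hg.ev_large hpD β (‖g w - β‖ + A * r)).filter_mono hle
      obtain ⟨v, hv1, hv2⟩ := (h1.and (eventually_nhdsWithin_of_forall hbd)).exists
      linarith
  intro v hv
  exact ⟨(key hv).1, lip r le_rfl key v hv, (key hv).2⟩

/-- Liouville's theorem for functions with isolated removable singularities. -/
lemma ext_entire (φ : ℂ → ℂ)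
    (h : ∀ w, ∃ M, ∀ᶠ v in 𝓝[≠] w, DifferentiableAt ℂ φ v ∧ ‖φ v‖ ≤ M) :
    ∃ ψ : ℂ → ℂ, Differentiable ℂ ψ ∧ (∀ w, ContinuousAt φ w → ψ w = φ w) ∧
      ∀ w, ∀ᶠ v in 𝓝[≠] w, ψ v = φ v := by
  have hc : ∀ w, ContinuousAt φ w → limUnder (𝓝[≠] w) φ = φ w := fun w hw =>
    (hw.tendsto.mono_left nhdsWithin_le_nhds).limUnder_eq
  have he : ∀ w, ∀ᶠ v in 𝓝[≠] w, limUnder (𝓝[≠] v) φ = φ v := by
    intro w
    obtain ⟨M, hM⟩ := h w
    filter_upwards [hM] with v hv
    exact hc v hv.1.continuousAt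
  refine ⟨fun w => limUnder (𝓝[≠] w) φ, fun w => ?_, hc, he⟩
  obtain ⟨M, hM⟩ := h w
  have ht : Tendsto φ (𝓝[≠] w) (𝓝 (limUnder (𝓝[≠] w) φ)) :=
    Complex.tendsto_limUnder_of_differentiable_on_punctured_nhds_of_bounded_under
      (hM.mono fun v hv => hv.1) ⟨M + ‖φ w‖, Filter.eventually_map.2 (hM.mono fun v hv => by
        have := norm_sub_le (φ v) (φ w)
        linarith [hv.2])⟩
  refine (Complex.analyticAt_of_differentiable_on_punctured_nhds_of_continuousAt ?_ ?_).differentiableAt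
  · filter_upwards [hM, eventually_eventually_nhdsWithin.2 (he w), self_mem_nhdsWithin]
      with v hv1 hv2 hv3
    refine hv1.1.congr_of_eventuallyEq ?_
    have : {w}ᶜ ∈ 𝓝 v := isOpen_compl_singleton.mem_nhds hv3
    rwa [nhdsWithin_eq_nhds.2 this] at hv2
  · rw [← continuousWithinAt_compl_self, ContinuousWithinAt]
    exact ht.congr' ((he w).mono fun v hv => hv.symm)

lemma const_of_entire_bdd {ψ : ℂ → ℂ} (hd : Differentiable ℂ ψ) {M : ℝ} (h : ∀ w, ‖ψ w‖ ≤ M)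
    (u v : ℂ) : ψ u = ψ v :=
  hd.apply_eq_apply_of_bounded (isBounded_iff_forall_norm_le.2 ⟨M, by
    rintro _ ⟨w, rfl⟩; exact h w⟩) u v

/-- A meromorphic function that omits a disc has derivative zero. -/
lemma Mer.dense {g : ℂ → ℂ} {D : Set ℂ} (hg : Mer g D) {w₀ : ℂ} (h0 : w₀ ∈ D)
    (hd : deriv g w₀ ≠ 0) (β : ℂ) {η : ℝ} (hη : 0 < η) : ∃ w ∈ D, ‖g w - β‖ < η := by
  by_contra hc
  push Not at hc
  have hne : ∀ w ∈ D, g w ≠ β := by
    intro w hw he
    have := hc w hw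
    rw [he, sub_self, norm_zero] at this
    linarith
  have h1 : Differentiable ℂ (rinv g D β) := fun w => (hg.rinv_an (hne w)).differentiableAt
  have h2 : ∀ w, ‖rinv g D β w‖ ≤ η⁻¹ := fun w => norm_rinv_le hη (hc w)
  apply hd
  have h3 : g =ᶠ[𝓝 w₀] fun _ => g w₀ := by
    filter_upwards [hg.op.mem_nhds h0] with v hv
    have h4 := const_of_entire_bdd h1 h2 v w₀
    rw [rinv_of_mem hv, rinv_of_mem h0, inv_inj, sub_left_inj] at h4
    exact h4
  rw [h3.deriv_eq, deriv_const]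

/-- Local injectivity and surjectivity with explicit constants. -/
lemma loc_inj {g : ℂ → ℂ} {w : ℂ} {r m : ℝ} (hd : DifferentiableOn ℂ g (ball w r))
    (hm : m ≤ ‖deriv g w‖) (hc : ∀ v ∈ ball w r, ‖deriv g v - deriv g w‖ ≤ m / 2)
    {u v : ℂ} (hu : u ∈ ball w r) (hv : v ∈ ball w r) : m / 2 * ‖u - v‖ ≤ ‖g u - g v‖ := by
  have h1 : ∀ x ∈ ball w r, HasDerivWithinAt (fun y => g y - deriv g w * y)
      (deriv g x - deriv g w) (ball w r) x := by
    intro x hx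
    have h2 : HasDerivAt g (deriv g x) x := (hd.differentiableAt (isOpen_ball.mem_nhds hx)).hasDerivAt
    have h3 : HasDerivAt (fun y => deriv g w * y) (deriv g w) x := by
      simpa using (hasDerivAt_id x).const_mul (deriv g w)
    exact (h2.sub h3).hasDerivWithinAt
  have h4 := (convex_ball w r).norm_image_sub_le_of_norm_hasDerivWithin_le h1 hc hv hu
  have e : deriv g w * (u - v) = (g u - g v) - (g u - deriv g w * u - (g v - deriv g w * v)) := by
    ring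
  have h5 : ‖deriv g w * (u - v)‖ ≤ ‖g u - g v‖ + m / 2 * ‖u - v‖ := by
    rw [e]
    exact (norm_sub_le _ _).trans (by linarith)
  rw [norm_mul] at h5
  have h6 : m * ‖u - v‖ ≤ ‖deriv g w‖ * ‖u - v‖ := mul_le_mul_of_nonneg_right hm (norm_nonneg _)
  linarith

lemma loc_surj {g : ℂ → ℂ} {w : ℂ} {r ρ ε : ℝ} (hd : DifferentiableOn ℂ g (ball w r))
    (hρ : 0 < ρ) (hρr : ρ < r) (hε : 0 < ε) (hs : ∀ v ∈ sphere w ρ, ε ≤ ‖g v - g w‖) :
    ball (g w) (ε / 2) ⊆ g '' closedBall w ρ := by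
  have hdc : DiffContOnCl ℂ g (ball w ρ) := by
    apply DifferentiableOn.diffContOnCl
    rw [closure_ball w hρ.ne']
    exact hd.mono (closedBall_subset_ball hρr)
  refine hdc.ball_subset_image_closedBall hρ hs ?_
  by_contra hc
  rw [Filter.not_frequently] at hc
  have han : AnalyticOnNhd ℂ g (ball w r) := hd.analyticOnNhd isOpen_ball
  have hev : g =ᶠ[𝓝 w] fun _ => g w := hc.mono fun v hv => by simpa using hv
  have h2 := han.eqOn_of_preconnected_of_eventuallyEq (g := fun _ => g w) analyticOnNhd_const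
    (convex_ball w r).isPreconnected (mem_ball_self (hρ.trans hρr)) hev
  have h3 : w + ρ ∈ sphere w ρ := by
    simp [abs_of_pos hρ]
  have h4 := hs _ h3
  rw [h2 (sphere_subset_ball hρr h3), sub_self, norm_zero] at h4
  linarith

end Pool.Agent.H716Z.SL
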