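import Pool.Agent.H716Z.SL.Basic

set_option autoImplicit false
open Filter Topology Metric Bornology Set

namespace Pool.Agent.H716Z.SL

/-- uniform sharing of the value `a` by `g` and its derivative -/
def Sh (g : ℂ → ℂ) (D : Set ℂ) (a : ℂ) : Prop :=
  ∀ ε > 0, ∃ δ > 0, ∀ w ∈ D, (‖g w - a‖ < δ → ‖deriv g w - a‖ ≤ ε) ∧
    (‖deriv g w - a‖ < δ → ‖g w - a‖ ≤ ε)

/-- bounded spherical derivative -/
def Bd (g : ℂ → ℂ) (D : Set ℂ) (K : ℝ) : Prop := ∀ w ∈ D, ‖deriv g w‖ ≤ K * (1 + ‖g w‖ ^ 2)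

lemma Sh.deriv_eq {g : ℂ → ℂ} {D : Set ℂ} {a w : ℂ} (h : Sh g D a) (hw : w ∈ D) (he : g w = a) :
    deriv g w = a := by
  rw [← sub_eq_zero, ← norm_le_zero_iff]
  apply le_of_forall_pos_le_add
  intro ε hε
  obtain ⟨δ, hδ, h1⟩ := h ε hε
  rw [zero_add]
  exact (h1 w hw).1 (by rw [he, sub_self, norm_zero]; exact hδ)

lemma Sh.eq_of_deriv {g : ℂ → ℂ} {D : Set ℂ} {a w : ℂ} (h : Sh g D a) (hw : w ∈ D)
    (he : deriv g w = a) : g w = a := by
  rw [← sub_eq_zero, ← norm_le_zero_iff]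
  apply le_of_forall_pos_le_add
  intro ε hε
  obtain ⟨δ, hδ, h1⟩ := h ε hε
  rw [zero_add]
  exact (h1 w hw).2 (by rw [he, sub_self, norm_zero]; exact hδ)

lemma exp_of_ode {g : ℂ → ℂ} {D : Set ℂ} (hg : Mer g D) (h : ∀ w ∈ D, deriv g w = g w) :
    (∀ w, w ∈ D) ∧ ∀ w, g w = g 0 * Complex.exp w := by
  have hD : ∀ w, w ∈ D := by
    intro w
    by_contra hw
    set Q : ℂ → ℂ := fun v => rinv g D 0 v * Complex.exp v with hQ
    have hQa : AnalyticAt ℂ Q w := (hg.rinv_an_of_not_mem 0 hw).mul analyticAt_cexp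
    have hne : ∀ᶠ v in 𝓝[≠] w, v ∈ D ∧ g v ≠ 0 := by
      filter_upwards [hg.ev w hw, hg.ev_large hw 0 0] with v h1 h2
      refine ⟨h1, fun h3 => ?_⟩
      rw [h3, sub_self, norm_zero] at h2
      exact lt_irrefl _ h2
    have h1 : ∀ᶠ v in 𝓝[≠] w, deriv Q v = 0 := by
      filter_upwards [hne] with v hv
      have h2 : HasDerivAt g (g v) v := by
        have := (hg.an v hv.1).differentiableAt.hasDerivAt
        rwa [h v hv.1] at this
      have h3 := (h2.inv hv.2).mul (Complex.hasDerivAt_exp v)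
      have h4 : Q =ᶠ[𝓝 v] (g⁻¹ * Complex.exp) := by
        filter_upwards [hg.op.mem_nhds hv.1] with u hu
        simp only [hQ, rinv_of_mem hu, sub_zero, Pi.mul_apply, Pi.inv_apply]
      rw [h4.deriv_eq, h3.deriv]
      have := hv.2
      simp only [Pi.inv_apply]
      field_simp
      ring
    have h5 : deriv Q w = 0 :=
      tendsto_nhds_unique (hQa.deriv.continuousAt.tendsto.mono_left nhdsWithin_le_nhds)
        (tendsto_const_nhds.congr' (h1.mono fun v hv => hv.symm))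
    have h6 : ∀ᶠ v in 𝓝 w, deriv Q v = 0 := by
      rw [← nhdsNE_sup_pure, eventually_sup]
      exact ⟨h1, by simpa using h5⟩
    obtain ⟨r, hr, h7⟩ := Metric.eventually_nhds_iff_ball.1 (h6.and hQa.eventually_analyticAt)
    have h8 : ∀ v ∈ ball w r, Q v = Q w := fun v hv =>
      isOpen_ball.is_const_of_deriv_eq_zero (convex_ball w r).isPreconnected
        (fun u hu => (h7 u hu).2.differentiableAt.differentiableWithinAt)
        (fun u hu => (h7 u hu).1) hv (mem_ball_self hr)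
    have h9 : ∀ᶠ v in 𝓝[≠] w, v ∈ ball w r := mem_nhdsWithin_of_mem_nhds (ball_mem_nhds w hr)
    obtain ⟨v, hv1, hv2⟩ := (hne.and h9).exists
    have h10 := h8 v hv2
    simp only [hQ, rinv_of_mem hv1.1, rinv_of_not_mem hw, sub_zero, zero_mul] at h10
    exact mul_ne_zero (inv_ne_zero hv1.2) (Complex.exp_ne_zero v) h10
  refine ⟨hD, fun w => ?_⟩
  have h1 : ∀ v, HasDerivAt (fun u => g u * Complex.exp (-u)) 0 v := by
    intro v
    have h2 : HasDerivAt g (g v) v := by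
      have := (hg.an v (hD v)).differentiableAt.hasDerivAt
      rwa [h v (hD v)] at this
    have h3 : HasDerivAt (fun u => Complex.exp (-u)) (Complex.exp (-v) * (-1)) v :=
      (hasDerivAt_neg v).cexp
    have h4 := h2.mul h3
    have e : g v * Complex.exp (-v) + g v * (Complex.exp (-v) * (-1)) = 0 := by ring
    rw [e] at h4
    exact h4
  have h5 := is_const_of_deriv_eq_zero (f := fun u => g u * Complex.exp (-u))
    (fun v => (h1 v).differentiableAt) (fun v => (h1 v).deriv) w 0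
  simp only [neg_zero, Complex.exp_zero, mul_one] at h5
  rw [← h5, mul_assoc, ← Complex.exp_add]
  simp

/-- the auxiliary function -/
noncomputable def phi (g : ℂ → ℂ) (a b : ℂ) (v : ℂ) : ℂ :=
  (deriv g v - g v) / ((g v - a) * (g v - b))

lemma phi_comm (g : ℂ → ℂ) (a b : ℂ) : phi g a b = phi g b a := by
  funext v; unfold phi; rw [mul_comm]

lemma phi_an {g : ℂ → ℂ} {D : Set ℂ} (hg : Mer g D) {a b v : ℂ} (hv : v ∈ D) (ha : g v ≠ a)
    (hb : g v ≠ b) : AnalyticAt ℂ (phi g a b) v := by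
  have h := hg.an v hv
  exact (h.deriv.sub h).div ((h.sub analyticAt_const).mul (h.sub analyticAt_const))
    (mul_ne_zero (sub_ne_zero.2 ha) (sub_ne_zero.2 hb))

lemma phi_bound {g : ℂ → ℂ} {D : Set ℂ} {K : ℝ} (hK0 : 0 ≤ K) (hK : Bd g D K) (a b : ℂ) {δ : ℝ}
    (hδ : 0 < δ) : ∃ M, ∀ v ∈ D, δ ≤ ‖g v - a‖ → δ ≤ ‖g v - b‖ → ‖phi g a b v‖ ≤ M := by
  refine ⟨(K + 1) * (((1 + ‖a‖) / δ + 1) * ((1 + ‖b‖) / δ + 1)), fun v hv ha hb => ?_⟩
  have key : ∀ c : ℂ, δ ≤ ‖g v - c‖ → 1 + ‖g v‖ ≤ ((1 + ‖c‖) / δ + 1) * ‖g v - c‖ := by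
    intro c hc
    have h1 : ‖g v‖ ≤ ‖g v - c‖ + ‖c‖ := norm_le_norm_sub_add _ _
    have h2 : (1 + ‖c‖) / δ * δ ≤ (1 + ‖c‖) / δ * ‖g v - c‖ :=
      mul_le_mul_of_nonneg_left hc (by positivity)
    rw [div_mul_cancel₀ _ hδ.ne'] at h2
    linarith
  have h1 := key a ha
  have h2 := key b hb
  have h3 : ‖deriv g v - g v‖ ≤ (K + 1) * ((1 + ‖g v‖) * (1 + ‖g v‖)) := by
    have h4 := hK v hv
    have h5 := norm_sub_le (deriv g v) (g v)
    have h6 := norm_nonneg (g v)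
    nlinarith [mul_nonneg hK0 h6]
  unfold phi
  rw [norm_div, norm_mul, div_le_iff₀ (mul_pos (hδ.trans_le ha) (hδ.trans_le hb))]
  refine h3.trans ?_
  rw [mul_assoc]
  apply mul_le_mul_of_nonneg_left _ (by linarith)
  calc (1 + ‖g v‖) * (1 + ‖g v‖)
      ≤ (((1 + ‖a‖) / δ + 1) * ‖g v - a‖) * (((1 + ‖b‖) / δ + 1) * ‖g v - b‖) :=
        mul_le_mul h1 h2 (by positivity) (by positivity)
    _ = _ := by ring

lemma phi_loc_at {g : ℂ → ℂ} {D : Set ℂ} (hg : Mer g D) {a b w : ℂ} (ha : a ≠ 0) (hab : a ≠ b)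
    (hw : w ∈ D) (h1 : g w = a) (h2 : deriv g w = a) :
    ∃ M, ∀ᶠ v in 𝓝[≠] w, DifferentiableAt ℂ (phi g a b) v ∧ ‖phi g a b v‖ ≤ M := by
  have han := hg.an w hw
  have t1 : Tendsto (slope g w) (𝓝[≠] w) (𝓝 a) := by
    have := hasDerivAt_iff_tendsto_slope.1 han.differentiableAt.hasDerivAt
    rwa [h2] at this
  have t2 := hasDerivAt_iff_tendsto_slope.1 (han.deriv.sub han).differentiableAt.hasDerivAt
  have t3 : Tendsto (fun v => g v - b) (𝓝[≠] w) (𝓝 (a - b)) := by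
    have := (han.continuousAt.tendsto.sub_const b).mono_left (nhdsWithin_le_nhds (s := {w}ᶜ))
    rwa [h1] at this
  have hne : a * (a - b) ≠ 0 := mul_ne_zero ha (sub_ne_zero.2 hab)
  have t4 := t2.div (t1.mul t3) hne
  have e1 := t1.eventually_ne ha
  have e2 := t3.eventually_ne (sub_ne_zero.2 hab)
  have e3 := t4.norm.eventually_lt_const
    (lt_add_one ‖deriv (deriv g - g) w / (a * (a - b))‖)
  refine ⟨‖deriv (deriv g - g) w / (a * (a - b))‖ + 1, ?_⟩
  filter_upwards [e1, e2, e3, hg.ev_mem w, self_mem_nhdsWithin] with v hv1 hv2 hv3 hv4 hv5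
  have hvw : v - w ≠ 0 := sub_ne_zero.2 hv5
  have hs : slope g w v = (g v - a) / (v - w) := by rw [slope_def_field, h1]
  have hva : g v ≠ a := by
    intro h
    rw [hs, h, sub_self, zero_div] at hv1
    exact hv1 rfl
  refine ⟨(phi_an hg hv4 hva (sub_ne_zero.1 hv2)).differentiableAt, le_trans (le_of_eq ?_) hv3.le⟩
  congr 1
  have hva' : g v - a ≠ 0 := sub_ne_zero.2 hva
  simp only [phi, Pi.div_apply, slope_def_field, Pi.sub_apply, h1, h2]
  field_simp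
  ring

lemma sphere_away {g : ℂ → ℂ} {D : Set ℂ} (hg : Mer g D) {a b : ℂ} (ha : a ≠ 0) (hab : a ≠ b)
    (hs : Sh g D a) : ∃ δ₁ > 0, ∃ ρ > 0, ∀ w ∈ D, ‖g w - a‖ < δ₁ →
      ∀ v ∈ sphere w ρ, v ∈ D ∧ δ₁ ≤ ‖g v - a‖ ∧ δ₁ ≤ ‖g v - b‖ := by
  have ha0 : 0 < ‖a‖ := norm_pos_iff.2 ha
  have hab0 : 0 < ‖a - b‖ := norm_pos_iff.2 (sub_ne_zero.2 hab)
  obtain ⟨δ', hδ', h1⟩ := hs (‖a‖ / 8) (by positivity)
  set δ := min δ' (‖a - b‖ / 2) with hδdef
  have hδ : 0 < δ := lt_min hδ' (by positivity)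
  have hδ1 : δ ≤ δ' := min_le_left _ _
  have hδ2 : δ ≤ ‖a - b‖ / 2 := min_le_right _ _
  refine ⟨δ / 64, by positivity, δ / (8 * ‖a‖), by positivity, fun w hw hwa v hv => ?_⟩
  have hb : ∀ u ∈ D, ‖g u - a‖ < δ → ‖deriv g u - a‖ ≤ ‖a‖ / 8 :=
    fun u hu h => (h1 u hu).1 (h.trans_le hδ1)
  have hst := hg.stay (β := a) (w := w) (δ := δ) (A := 2 * ‖a‖) (r := δ / (4 * ‖a‖))
    (by positivity) (fun u _ hu h => by
      have h2 := hb u hu h
      have h3 : ‖deriv g u‖ ≤ ‖deriv g u - a‖ + ‖a‖ := norm_le_norm_sub_add _ _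
      linarith) hw (by
      have : 2 * ‖a‖ * (δ / (4 * ‖a‖)) = δ / 2 := by field_simp; ring
      linarith)
  have hlt : δ / (8 * ‖a‖) < δ / (4 * ‖a‖) := by
    apply div_lt_div_of_pos_left hδ (by positivity); linarith
  have hvb : v ∈ ball w (δ / (4 * ‖a‖)) := sphere_subset_ball hlt hv
  have hwb : w ∈ ball w (δ / (4 * ‖a‖)) := mem_ball_self (by positivity)
  have hwd := hb w hw (hst w hwb).2.2
  have hinj := loc_inj (g := g) (w := w) (r := δ / (4 * ‖a‖)) (m := ‖a‖ / 2)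
    (fun u hu => (hg.an u (hst u hu).1).differentiableAt.differentiableWithinAt)
    (by
      have h3 : ‖a‖ ≤ ‖a - deriv g w‖ + ‖deriv g w‖ := norm_le_norm_sub_add _ _
      rw [norm_sub_rev] at h3
      linarith)
    (fun u hu => by
      have h2 := hb u (hst u hu).1 (hst u hu).2.2
      have h3 : ‖deriv g u - deriv g w‖ ≤ ‖deriv g u - a‖ + ‖a - deriv g w‖ :=
        norm_sub_le_norm_sub_add_norm_sub _ _ _
      rw [norm_sub_rev a] at h3
      linarith) hvb hwb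
  rw [mem_sphere, dist_eq_norm] at hv
  rw [hv] at hinj
  have e : ‖a‖ / 2 / 2 * (δ / (8 * ‖a‖)) = δ / 32 := by field_simp; ring
  rw [e] at hinj
  refine ⟨(hst v hvb).1, ?_, ?_⟩
  · have h3 : ‖g v - g w‖ ≤ ‖g v - a‖ + ‖a - g w‖ := norm_sub_le_norm_sub_add_norm_sub _ _ _
    rw [norm_sub_rev a] at h3
    linarith
  · have h3 : ‖a - b‖ ≤ ‖a - g v‖ + ‖g v - b‖ := norm_sub_le_norm_sub_add_norm_sub _ _ _
    rw [norm_sub_rev a (g v)] at h3
    have := (hst v hvb).2.2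
    linarith

lemma riccati_aux {g : ℂ → ℂ} {D : Set ℂ} (hg : Mer g D) {a b c w₀ : ℂ} (hs : Sh g D a)
    (h0 : w₀ ∈ D) (hd : deriv g w₀ ≠ 0) (hc : c ≠ 0)
    (h : ∀ w ∈ D, deriv g w - g w = c * ((g w - a) * (g w - b))) : b - c⁻¹ = a := by
  rw [← sub_eq_zero, ← norm_le_zero_iff]
  apply le_of_forall_pos_le_add
  intro ε hε
  rw [zero_add]
  obtain ⟨δ, hδ, h1⟩ := hs (ε / 2) (by positivity)
  set β := b - c⁻¹ with hβ
  have hc0 : 0 < ‖c‖ := norm_pos_iff.2 hc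
  set η := min (min 1 (ε / 2)) (δ / (‖c‖ * (‖β - a‖ + 1))) with hη
  have hη0 : 0 < η := lt_min (lt_min one_pos (by positivity)) (by positivity)
  obtain ⟨w, hw, hw2⟩ := hg.dense h0 hd β hη0
  have h2 : deriv g w - a = c * (g w - a) * (g w - β) := by
    have := h w hw
    rw [hβ]
    field_simp
    linear_combination this
  have h3 : ‖g w - a‖ ≤ ‖β - a‖ + 1 := by
    have h4 : ‖g w - a‖ ≤ ‖g w - β‖ + ‖β - a‖ := norm_sub_le_norm_sub_add_norm_sub _ _ _
    have h5 : η ≤ 1 := (min_le_left _ _).trans (min_le_left _ _)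
    linarith
  have h6 : ‖deriv g w - a‖ < δ := by
    rw [h2, norm_mul, norm_mul]
    have h7 : η ≤ δ / (‖c‖ * (‖β - a‖ + 1)) := min_le_right _ _
    have h8 : ‖g w - β‖ < δ / (‖c‖ * (‖β - a‖ + 1)) := hw2.trans_le h7
    rw [lt_div_iff₀ (by positivity)] at h8
    calc ‖c‖ * ‖g w - a‖ * ‖g w - β‖ ≤ ‖c‖ * (‖β - a‖ + 1) * ‖g w - β‖ := by gcongr
      _ < δ := by linarith
  have h9 := (h1 w hw).2 h6
  have h10 : ‖β - a‖ ≤ ‖β - g w‖ + ‖g w - a‖ := norm_sub_le_norm_sub_add_norm_sub _ _ _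
  rw [norm_sub_rev β (g w)] at h10
  have h11 : η ≤ ε / 2 := (min_le_left _ _).trans (min_le_right _ _)
  linarith

theorem class1 {g : ℂ → ℂ} {D : Set ℂ} (hg : Mer g D) {K : ℝ} (hK0 : 0 ≤ K) (hK : Bd g D K)
    {a b w₀ : ℂ} (ha : a ≠ 0) (hb : b ≠ 0) (hab : a ≠ b) (hsa : Sh g D a) (hsb : Sh g D b)
    (h0 : w₀ ∈ D) (hd : deriv g w₀ ≠ 0) : (∀ w, w ∈ D) ∧ ∀ w, g w = g 0 * Complex.exp w := by
  obtain ⟨M1, hM1⟩ := phi_bound hK0 hK a b one_pos
  have hpole : ∀ w, w ∉ D →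
      ∀ᶠ v in 𝓝[≠] w, DifferentiableAt ℂ (phi g a b) v ∧ ‖phi g a b v‖ ≤ M1 := by
    intro w hw
    filter_upwards [hg.ev w hw, hg.ev_large hw a 1, hg.ev_large hw b 1] with v h1 h2 h3
    refine ⟨(phi_an hg h1 ?_ ?_).differentiableAt, hM1 v h1 h2.le h3.le⟩
    · intro h; rw [h, sub_self, norm_zero] at h2; linarith
    · intro h; rw [h, sub_self, norm_zero] at h3; linarith
  obtain ⟨ψ, hψ, hψ1, hψ2⟩ := ext_entire (phi g a b) (by
    intro w
    by_cases hw : w ∈ D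
    · by_cases hwa : g w = a
      · exact phi_loc_at hg ha hab hw hwa (hsa.deriv_eq hw hwa)
      · by_cases hwb : g w = b
        · rw [phi_comm]
          exact phi_loc_at hg hb hab.symm hw hwb (hsb.deriv_eq hw hwb)
        · have h1 := phi_an hg hw hwa hwb
          refine ⟨‖phi g a b w‖ + 1, mem_nhdsWithin_of_mem_nhds ?_⟩
          filter_upwards [h1.eventually_analyticAt,
            h1.continuousAt.norm.eventually_lt_const (lt_add_one _)] with v h2 h3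
          exact ⟨h2.differentiableAt, h3.le⟩
    · exact ⟨M1, hpole w hw⟩)
  obtain ⟨δa, hδa, ρa, hρa, hA⟩ := sphere_away hg ha hab hsa
  obtain ⟨δb, hδb, ρb, hρb, hB⟩ := sphere_away hg hb hab.symm hsb
  have hδ : 0 < min δa δb := lt_min hδa hδb
  obtain ⟨M2, hM2⟩ := phi_bound hK0 hK a b hδ
  have good : ∀ v ∈ D, min δa δb ≤ ‖g v - a‖ → min δa δb ≤ ‖g v - b‖ → ‖ψ v‖ ≤ M2 := by
    intro v hv h1 h2
    rw [hψ1 v (phi_an hg hv ?_ ?_).continuousAt]
    · exact hM2 v hv h1 h2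
    · intro h; rw [h, sub_self, norm_zero] at h1; linarith
    · intro h; rw [h, sub_self, norm_zero] at h2; linarith
  have mx : ∀ w ρ, 0 < ρ → (∀ v ∈ sphere w ρ, ‖ψ v‖ ≤ M2) → ‖ψ w‖ ≤ M2 := by
    intro w ρ hρ h
    refine Complex.norm_le_of_forall_mem_frontier_norm_le (U := ball w ρ) isBounded_ball
      hψ.diffContOnCl ?_ (subset_closure (mem_ball_self hρ))
    rwa [frontier_ball w hρ.ne']
  have hbd : ∀ w, ‖ψ w‖ ≤ max M1 M2 := by
    intro w
    by_cases hw : w ∈ D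
    · refine le_trans ?_ (le_max_right _ _)
      by_cases h1 : ‖g w - a‖ < min δa δb
      · refine mx w ρa hρa fun v hv => ?_
        obtain ⟨h2, h3, h4⟩ := hA w hw (h1.trans_le (min_le_left _ _)) v hv
        exact good v h2 ((min_le_left _ _).trans h3) ((min_le_left _ _).trans h4)
      · by_cases h1' : ‖g w - b‖ < min δa δb
        · refine mx w ρb hρb fun v hv => ?_
          obtain ⟨h2, h3, h4⟩ := hB w hw (h1'.trans_le (min_le_right _ _)) v hv
          exact good v h2 ((min_le_right _ _).trans h4) ((min_le_right _ _).trans h3)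
        · exact good w hw (not_lt.1 h1) (not_lt.1 h1')
    · refine le_trans ?_ (le_max_left _ _)
      have h1 : Tendsto (fun v => ‖ψ v‖) (𝓝[≠] w) (𝓝 ‖ψ w‖) :=
        (hψ.continuous.norm.tendsto w).mono_left nhdsWithin_le_nhds
      refine le_of_tendsto h1 ?_
      filter_upwards [hpole w hw, hψ2 w] with v h2 h3
      rw [h3]; exact h2.2
  have hric : ∀ w ∈ D, deriv g w - g w = ψ 0 * ((g w - a) * (g w - b)) := by
    intro w hw
    by_cases hwa : g w = a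
    · rw [hsa.deriv_eq hw hwa, hwa]; simp
    · by_cases hwb : g w = b
      · rw [hsb.deriv_eq hw hwb, hwb]; simp
      · rw [const_of_entire_bdd hψ hbd 0 w, hψ1 w (phi_an hg hw hwa hwb).continuousAt]
        unfold phi
        rw [div_mul_cancel₀ _ (mul_ne_zero (sub_ne_zero.2 hwa) (sub_ne_zero.2 hwb))]
  have hc : ψ 0 = 0 := by
    by_contra hc
    have e1 := riccati_aux hg hsa h0 hd hc hric
    have e2 := riccati_aux hg (b := a) hsb h0 hd hc (fun w hw => by rw [hric w hw]; ring)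
    apply hab
    linear_combination (e2 - e1) / 2
  refine exp_of_ode hg fun w hw => ?_
  have := hric w hw
  rw [hc, zero_mul, sub_eq_zero] at this
  exact this

end Pool.Agent.H716Z.SL
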