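import Pool.Agent.H716Z.SL.Class1

set_option autoImplicit false
open Filter Topology Metric Bornology Set

namespace Pool.Agent.H716Z.SL

lemma unif_loc {g : ℂ → ℂ} {D : Set ℂ} (hg : Mer g D) {K : ℝ} (hK0 : 0 ≤ K) (hK : Bd g D K)
    (hs : Sh g D 0) {β : ℂ} (hβ : β ≠ 0) : ∃ m > 0, ∃ r > 0, ∀ w ∈ D, ‖g w - β‖ < ‖β‖ / 4 →
      ball w r ⊆ D ∧ m ≤ ‖deriv g w‖ ∧ ∀ v ∈ ball w r, ‖deriv g v - deriv g w‖ ≤ m / 2 := by
  have hβ0 : 0 < ‖β‖ := norm_pos_iff.2 hβ
  obtain ⟨m, hm, h1⟩ := hs (‖β‖ / 4) (by positivity)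
  set A : ℝ := K * (1 + (2 * ‖β‖) ^ 2) + 1 with hA
  have hA0 : 0 < A := by positivity
  have hb : ∀ u ∈ D, ‖g u - β‖ < ‖β‖ / 2 → ‖deriv g u‖ ≤ A := by
    intro u hu h
    have h2 : ‖g u‖ ≤ ‖g u - β‖ + ‖β‖ := norm_le_norm_sub_add _ _
    have h3 : ‖g u‖ ^ 2 ≤ (2 * ‖β‖) ^ 2 := by
      apply pow_le_pow_left₀ (norm_nonneg _); linarith
    have h4 := hK u hu
    have h5 : K * (1 + ‖g u‖ ^ 2) ≤ K * (1 + (2 * ‖β‖) ^ 2) :=
      mul_le_mul_of_nonneg_left (by linarith) hK0
    linarith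
  set r₀ : ℝ := ‖β‖ / (8 * A) with hr₀
  have hr0 : 0 < r₀ := by positivity
  refine ⟨m, hm, min r₀ (m * r₀ / (4 * A)), lt_min hr0 (by positivity), fun w hw hwβ => ?_⟩
  have hst := hg.stay (β := β) (w := w) (δ := ‖β‖ / 2) (A := A) (r := r₀) hA0.le
    (fun u _ hu h => hb u hu h) hw (by
      have : A * r₀ = ‖β‖ / 8 := by rw [hr₀]; field_simp
      linarith)
  refine ⟨fun v hv => (hst v (ball_subset_ball (min_le_left _ _) hv)).1, ?_, fun v hv => ?_⟩
  · by_contra hc
    have h2 := (h1 w hw).2 (by rw [sub_zero]; exact not_le.1 hc)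
    rw [sub_zero] at h2
    have h3 : ‖β‖ ≤ ‖β - g w‖ + ‖g w‖ := norm_le_norm_sub_add _ _
    rw [norm_sub_rev] at h3
    linarith
  · have h2 := lip_center (h := deriv g) (c := w) (r := r₀) (M := A)
      (fun u hu => (hg.an u (hst u hu).1).deriv.differentiableAt.differentiableWithinAt)
      (fun u hu => hb u (hst u hu).1 (hst u hu).2.2) (ball_subset_ball (min_le_left _ _) hv)
    have h3 : ‖v - w‖ ≤ m * r₀ / (4 * A) := by
      rw [mem_ball, dist_eq_norm] at hv
      exact hv.le.trans (min_le_right _ _)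
    calc ‖deriv g v - deriv g w‖ ≤ 2 * A / r₀ * ‖v - w‖ := h2
      _ ≤ 2 * A / r₀ * (m * r₀ / (4 * A)) := by gcongr
      _ = m / 2 := by field_simp; ring

lemma cover {g : ℂ → ℂ} {D : Set ℂ} (hg : Mer g D) {K : ℝ} (hK0 : 0 ≤ K) (hK : Bd g D K)
    (hs : Sh g D 0) : IsCoveringMapOn (D.indicator g) {0}ᶜ := by
  intro β hβ
  have hβ' : β ≠ 0 := hβ
  have hβ0 : 0 < ‖β‖ := norm_pos_iff.2 hβ'
  obtain ⟨m, hm, r, hr, h1⟩ := unif_loc hg hK0 hK hs hβ'
  have hdiff : ∀ w ∈ D, ‖g w - β‖ < ‖β‖ / 4 → DifferentiableOn ℂ g (ball w r) :=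
    fun w hw h u hu => (hg.an u ((h1 w hw h).1 hu)).differentiableAt.differentiableWithinAt
  have hinj : ∀ w ∈ D, ‖g w - β‖ < ‖β‖ / 4 → ∀ u ∈ ball w r, ∀ v ∈ ball w r,
      m / 2 * ‖u - v‖ ≤ ‖g u - g v‖ :=
    fun w hw h u hu v hv => loc_inj (hdiff w hw h) (h1 w hw h).2.1 (h1 w hw h).2.2 hu hv
  have hsurj : ∀ w ∈ D, ‖g w - β‖ < ‖β‖ / 4 → ∀ y, ‖y - g w‖ < m * r / 32 →
      ∃ x, ‖x - w‖ < r / 4 ∧ g x = y := by
    intro w hw h y hy
    have h2 := loc_surj (g := g) (w := w) (r := r) (ρ := r / 8) (ε := m * r / 16) (hdiff w hw h)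
      (by positivity) (by linarith) (by positivity) (fun v hv => by
        have h3 := hinj w hw h v (sphere_subset_ball (by linarith) hv) w (mem_ball_self hr)
        rw [mem_sphere, dist_eq_norm] at hv
        rw [hv] at h3
        linarith)
    obtain ⟨x, hx1, hx2⟩ := h2 (show y ∈ ball (g w) (m * r / 16 / 2) by
      rw [mem_ball, dist_eq_norm]; linarith)
    rw [mem_closedBall, dist_eq_norm] at hx1
    exact ⟨x, by linarith, hx2⟩
  set τ : ℝ := min (‖β‖ / 4) (m * r / 32) with hτ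
  have hτ0 : 0 < τ := lt_min (by positivity) (by positivity)
  have hτ1 : τ ≤ ‖β‖ / 4 := min_le_left _ _
  have hτ2 : τ ≤ m * r / 32 := min_le_right _ _
  have hpre : ∀ x, D.indicator g x ∈ ball β τ → x ∈ D ∧ ‖g x - β‖ < τ := by
    intro x hx
    by_cases hxD : x ∈ D
    · rw [indicator_of_mem hxD, mem_ball, dist_eq_norm] at hx
      exact ⟨hxD, hx⟩
    · rw [indicator_of_notMem hxD, mem_ball, dist_zero_left] at hx
      linarith
  let ι := {i : ℂ // i ∈ D ∧ g i = β}
  let _ : TopologicalSpace ι := ⊥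
  have _ : DiscreteTopology ι := ⟨rfl⟩
  have hι : ∀ i : ι, ‖g i.1 - β‖ < ‖β‖ / 4 := fun i => by
    rw [i.2.2, sub_self, norm_zero]; positivity
  have hsub : ∀ i : ι, ball i.1 (r / 4) ⊆ ball i.1 r := fun i => ball_subset_ball (by linarith)
  have hsubD : ∀ i : ι, ball i.1 (r / 4) ⊆ D := fun i => (hsub i).trans (h1 i.1 i.2.1 (hι i)).1
  have hex : D.indicator g ⁻¹' ball β τ ⊆ ⋃ i : ι, ball i.1 (r / 4) := by
    intro x hx
    obtain ⟨hxD, hxβ⟩ := hpre x hx
    obtain ⟨i, hi1, hi2⟩ := hsurj x hxD (hxβ.trans_le hτ1) β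
      (by rw [norm_sub_rev]; exact hxβ.trans_le hτ2)
    have hiD : i ∈ D := (h1 x hxD (hxβ.trans_le hτ1)).1 (by
      rw [mem_ball, dist_eq_norm]; linarith)
    refine mem_iUnion.2 ⟨⟨i, hiD, hi2⟩, ?_⟩
    rw [mem_ball, dist_eq_norm, norm_sub_rev]
    exact hi1
  refine IsEvenlyCovered.to_isEvenlyCovered_preimage (I := ι) ?_
  rcases isEmpty_or_nonempty ι with hemp | hne
  · refine IsEvenlyCovered.of_preimage_eq_empty _ (ball_mem_nhds β hτ0) ?_
    rw [← subset_empty_iff]
    refine hex.trans ?_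
    simp
  · refine IsEvenlyCovered.of_trivialization (t := IsOpen.trivializationDiscrete
      (f := D.indicator g) (fun i : ι => ball i.1 (r / 4)) (ball β τ) isOpen_ball ?_ ?_ ?_ ?_ hex)
      (mem_ball_self hτ0)
    · intro i W hW
      constructor
      · intro hWo
        rw [inter_comm]
        refine ContinuousOn.isOpen_inter_preimage ?_ isOpen_ball hWo
        refine ContinuousOn.congr (f := g)
          (fun u hu => (hg.an u (hsubD i hu)).continuousAt.continuousWithinAt) ?_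
        intro u hu
        exact indicator_of_mem (hsubD i hu) g
      · intro hWo
        rw [isOpen_iff_mem_nhds]
        intro y hy
        have hy2 := hW hy
        rw [mem_ball, dist_eq_norm] at hy2
        obtain ⟨x, hx1, hx2⟩ := hsurj i.1 i.2.1 (hι i) y (by rw [i.2.2]; linarith)
        have hxb : x ∈ ball i.1 (r / 4) := by rw [mem_ball, dist_eq_norm]; exact hx1
        have hxD := hsubD i hxb
        have hd0 : deriv g x ≠ 0 := by
          intro h0
          have h2 := (h1 i.1 i.2.1 (hι i)).2.2 x (hsub i hxb)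
          have h3 := (h1 i.1 i.2.1 (hι i)).2.1
          rw [h0, zero_sub, norm_neg] at h2
          linarith
        have hmap := (hg.an x hxD).hasStrictDerivAt.map_nhds_eq hd0
        rw [← hx2, ← hmap, Filter.mem_map]
        have hmem : D.indicator g ⁻¹' W ∩ ball i.1 (r / 4) ∈ 𝓝 x := hWo.mem_nhds
          ⟨by rw [mem_preimage, indicator_of_mem hxD, hx2]; exact hy, hxb⟩
        filter_upwards [hmem] with u hu
        have h4 := hu.1
        rwa [mem_preimage, indicator_of_mem (hsubD i hu.2)] at h4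
    · intro i u hu v hv huv
      rw [indicator_of_mem (hsubD i hu), indicator_of_mem (hsubD i hv)] at huv
      have h2 := hinj i.1 i.2.1 (hι i) u (hsub i hu) v (hsub i hv)
      rw [huv, sub_self, norm_zero] at h2
      have h3 : ‖u - v‖ ≤ 0 := by
        by_contra hc
        have := mul_pos (half_pos hm) (not_le.1 hc)
        linarith
      exact sub_eq_zero.1 (norm_le_zero_iff.1 h3)
    · intro i y hy
      rw [mem_ball, dist_eq_norm] at hy
      obtain ⟨x, hx1, hx2⟩ := hsurj i.1 i.2.1 (hι i) y (by rw [i.2.2]; linarith)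
      have hxb : x ∈ ball i.1 (r / 4) := by rw [mem_ball, dist_eq_norm]; exact hx1
      exact ⟨x, hxb, by rw [indicator_of_mem (hsubD i hxb), hx2]⟩
    · intro i j hij
      rw [Function.onFun, Set.disjoint_left]
      intro x hxi hxj
      apply hij
      rw [mem_ball, dist_eq_norm] at hxi hxj
      have hj : j.1 ∈ ball i.1 r := by
        rw [mem_ball, dist_eq_norm]
        have h3 : ‖j.1 - i.1‖ ≤ ‖j.1 - x‖ + ‖x - i.1‖ := norm_sub_le_norm_sub_add_norm_sub _ _ _
        rw [norm_sub_rev j.1 x] at h3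
        linarith
      have h2 := hinj i.1 i.2.1 (hι i) i.1 (mem_ball_self hr) j.1 hj
      rw [i.2.2, j.2.2, sub_self, norm_zero] at h2
      have h3 : ‖i.1 - j.1‖ ≤ 0 := by
        by_contra hc
        have := mul_pos (half_pos hm) (not_le.1 hc)
        linarith
      exact Subtype.ext (sub_eq_zero.1 (norm_le_zero_iff.1 h3))

/-- A zero-free entire function of exponential type is an exponential. -/
lemma exp_type {v : ℂ → ℂ} (hv : Differentiable ℂ v) (h0 : ∀ t, v t ≠ 0) {C : ℝ} (hC : 0 < C)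
    (hb : ∀ t, ‖v t‖ ≤ C * Real.exp (2 * ‖t‖)) : ∃ α : ℂ, ∀ t, v t = v 0 * Complex.exp (α * t) := by
  have hq : Differentiable ℂ (fun t => deriv v t / v t) := hv.deriv.div hv h0
  obtain ⟨h₁, hh₁⟩ := hq.isExactOn_univ
  set h : ℂ → ℂ := fun t => h₁ t - h₁ 0 with hh
  have hd : ∀ t, HasDerivAt h (deriv v t / v t) t := fun t => (hh₁ t (mem_univ t)).sub_const _
  have hdd : Differentiable ℂ h := fun t => (hd t).differentiableAt
  have hh0 : h 0 = 0 := by simp [hh]
  have e1 : ∀ t, v t = v 0 * Complex.exp (h t) := by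
    intro t
    have h1 : ∀ u, HasDerivAt (fun u => v u * Complex.exp (-h u)) 0 u := by
      intro u
      have h3 := ((hv u).hasDerivAt).mul (hd u).neg.cexp
      have e : deriv v u * Complex.exp ((-h) u) +
          v u * (Complex.exp ((-h) u) * -(deriv v u / v u)) = 0 := by
        have := h0 u
        field_simp
        ring
      rw [e] at h3
      exact h3
    have h5 := is_const_of_deriv_eq_zero (f := fun u => v u * Complex.exp (-h u))
      (fun u => (h1 u).differentiableAt) (fun u => (h1 u).deriv) t 0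
    simp only [hh0, neg_zero, Complex.exp_zero, mul_one] at h5
    rw [← h5, mul_assoc, ← Complex.exp_add]
    simp
  have hv0 : 0 < ‖v 0‖ := norm_pos_iff.2 (h0 0)
  set L : ℝ := |Real.log (C / ‖v 0‖)| + 1 with hL
  have hL0 : 0 < L := by positivity
  have hre : ∀ t, (h t).re ≤ L + 2 * ‖t‖ := by
    intro t
    have h1 := hb t
    rw [e1 t, norm_mul, Complex.norm_exp] at h1
    have h2 : Real.exp (h t).re ≤ C / ‖v 0‖ * Real.exp (2 * ‖t‖) := by
      rw [div_mul_eq_mul_div, le_div_iff₀ hv0]; linarith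
    have h3 : C / ‖v 0‖ = Real.exp (Real.log (C / ‖v 0‖)) := (Real.exp_log (by positivity)).symm
    rw [h3, ← Real.exp_add, Real.exp_le_exp] at h2
    have := le_abs_self (Real.log (C / ‖v 0‖))
    linarith
  have hnorm : ∀ t, ‖h t‖ ≤ 2 * L + 4 + 8 * ‖t‖ := by
    intro t
    have ht := norm_nonneg t
    have h1 := Complex.borelCaratheodory_zero (f := h) (M := L + 2 * (2 * ‖t‖ + 1))
      (R := 2 * ‖t‖ + 1) (z := t) (by positivity) hdd.differentiableOn (fun u hu => by
        rw [mem_ball_zero_iff] at hu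
        have := hre u
        simp only [mem_ofPred_eq]
        linarith) (by positivity) (by rw [mem_ball_zero_iff]; linarith) hh0
    refine h1.trans ?_
    rw [div_le_iff₀ (by linarith)]
    nlinarith
  have hder : ∀ t, ‖deriv h t‖ ≤ 2 * (2 * L + 20) := by
    intro t
    have ht := norm_nonneg t
    have h1 := deriv_center (h := h) (c := t) (r := ‖t‖ + 1) (M := (2 * L + 20) * (‖t‖ + 1))
      (by positivity) hdd.differentiableOn (fun u hu => by
        rw [mem_ball, dist_eq_norm] at hu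
        have h2 : ‖u‖ ≤ ‖u - t‖ + ‖t‖ := norm_le_norm_sub_add _ _
        have := hnorm u
        nlinarith)
    refine h1.trans (le_of_eq ?_)
    field_simp
  refine ⟨deriv h 0, fun t => ?_⟩
  rw [e1 t]
  congr 2
  have h1 : ∀ u, HasDerivAt (fun u => h u - deriv h 0 * u) 0 u := by
    intro u
    have h2 := (hdd u).hasDerivAt.sub ((hasDerivAt_id u).const_mul (deriv h 0))
    rw [const_of_entire_bdd hdd.deriv hder u 0, mul_one, sub_self] at h2
    exact h2
  have h5 := is_const_of_deriv_eq_zero (f := fun u => h u - deriv h 0 * u)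
    (fun u => (h1 u).differentiableAt) (fun u => (h1 u).deriv) t 0
  simp only [hh0, mul_zero, sub_zero] at h5
  exact sub_eq_zero.1 h5

theorem class2 {g : ℂ → ℂ} {D : Set ℂ} (hg : Mer g D) {K : ℝ} (hK0 : 0 ≤ K) (hK : Bd g D K)
    {a : ℂ} (ha : a ≠ 0) (hsa : Sh g D a) (hs0 : Sh g D 0)
    (h0 : (0 : ℂ) ∈ D) (hc : g 0 ≠ 0) : (∀ w, w ∈ D) ∧ ∀ w, g w = g 0 * Complex.exp w := by
  set c := g 0 with hcdef
  obtain ⟨ζ, ⟨hζ0, hζ⟩, -⟩ := (cover hg hK0 hK hs0).existsUnique_continuousMap_lifts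
    (A := ℂ) ⟨fun t => c * Complex.exp t, by fun_prop⟩ (a₀ := 0) (e₀ := 0)
    (by simp [indicator_of_mem h0, hcdef])
    (fun t => mul_ne_zero hc (Complex.exp_ne_zero t))
  have hne : ∀ t, c * Complex.exp t ≠ 0 := fun t => mul_ne_zero hc (Complex.exp_ne_zero t)
  have hζ1 : ∀ t, ζ t ∈ D ∧ g (ζ t) = c * Complex.exp t := by
    intro t
    have h1 : D.indicator g (ζ t) = c * Complex.exp t := congrFun hζ t
    by_cases h : ζ t ∈ D
    · exact ⟨h, by rwa [indicator_of_mem h] at h1⟩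
    · rw [indicator_of_notMem h] at h1
      exact absurd h1.symm (hne t)
  have hv0 : ∀ t, deriv g (ζ t) ≠ 0 := fun t h => hne t (by
    rw [← (hζ1 t).2]; exact hs0.eq_of_deriv (hζ1 t).1 h)
  have hζd : ∀ t, HasDerivAt ζ (deriv g (ζ t) / g (ζ t))⁻¹ t := by
    intro t
    have hgt : g (ζ t) ≠ 0 := by rw [(hζ1 t).2]; exact hne t
    have h1 : HasDerivAt (fun w => t + Complex.log (g w / g (ζ t))) (deriv g (ζ t) / g (ζ t))
        (ζ t) := by
      have h2 := ((hg.an _ (hζ1 t).1).differentiableAt.hasDerivAt.div_const (g (ζ t))).clog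
        (by rw [div_self hgt]; exact Complex.one_mem_slitPlane)
      rw [div_self hgt, div_one] at h2
      exact h2.const_add t
    refine HasDerivAt.of_local_left_inverse ζ.continuous.continuousAt h1
      (div_ne_zero (hv0 t) hgt) ?_
    filter_upwards [ball_mem_nhds t one_pos] with y hy
    rw [(hζ1 t).2, (hζ1 y).2, mul_div_mul_left _ _ hc, ← Complex.exp_sub, Complex.log_exp]
    · ring
    · rw [mem_ball, dist_eq_norm] at hy
      have := (abs_le.1 (Complex.abs_im_le_norm (y - t))).1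
      linarith [Real.pi_gt_three]
    · rw [mem_ball, dist_eq_norm] at hy
      have := (abs_le.1 (Complex.abs_im_le_norm (y - t))).2
      linarith [Real.pi_gt_three]
  set v : ℂ → ℂ := fun t => deriv g (ζ t) with hvdef
  have hvd : Differentiable ℂ v := fun t =>
    (hg.an _ (hζ1 t).1).deriv.differentiableAt.comp t (hζd t).differentiableAt
  obtain ⟨α, hα⟩ := exp_type hvd hv0 (C := K * (1 + ‖c‖ ^ 2) + 1) (by positivity) (fun t => by
    have h1 := hK _ (hζ1 t).1
    rw [(hζ1 t).2, norm_mul, Complex.norm_exp, mul_pow] at h1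
    have h2 : Real.exp t.re ^ 2 ≤ Real.exp (2 * ‖t‖) := by
      rw [← Real.exp_nat_mul, Real.exp_le_exp]
      have := Complex.re_le_norm t
      push_cast; linarith
    have h3 : 1 ≤ Real.exp (2 * ‖t‖) := Real.one_le_exp (by positivity)
    have h4 : K * (1 + ‖c‖ ^ 2 * Real.exp t.re ^ 2) ≤
        K * (Real.exp (2 * ‖t‖) + ‖c‖ ^ 2 * Real.exp (2 * ‖t‖)) := by gcongr
    show ‖deriv g (ζ t)‖ ≤ _
    nlinarith)
  set t₀ := Complex.log (a / c) with ht₀
  have e0 : c * Complex.exp t₀ = a := by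
    rw [ht₀, Complex.exp_log (div_ne_zero ha hc)]; field_simp
  have f1 : ∀ t, c * Complex.exp t = a → v t = a := fun t h =>
    hsa.deriv_eq (hζ1 t).1 (by rw [(hζ1 t).2, h])
  have f2 : ∀ t, v t = a → c * Complex.exp t = a := fun t h => by
    rw [← (hζ1 t).2]; exact hsa.eq_of_deriv (hζ1 t).1 h
  have e1 : v t₀ = a := f1 _ e0
  have shift : ∀ s, v (t₀ + s) = a * Complex.exp (α * s) := by
    intro s
    rw [hα, mul_add, Complex.exp_add, ← mul_assoc, ← hα, e1]
  have shift2 : ∀ s, c * Complex.exp (t₀ + s) = a * Complex.exp s := by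
    intro s
    rw [Complex.exp_add, ← mul_assoc, e0]
  have hpi : (2 * Real.pi * Complex.I : ℂ) ≠ 0 := Complex.two_pi_I_ne_zero
  obtain ⟨k, hk⟩ : ∃ k : ℤ, α = k := by
    have h1 := f1 (t₀ + 2 * Real.pi * Complex.I) (by
      rw [shift2, Complex.exp_two_pi_mul_I, mul_one])
    rw [shift, mul_eq_left₀ ha, Complex.exp_eq_one_iff] at h1
    obtain ⟨n, hn⟩ := h1
    exact ⟨n, mul_right_cancel₀ hpi hn⟩
  have hα0 : α ≠ 0 := by
    intro h
    have h1 := f2 (t₀ + Real.pi * Complex.I) (by rw [shift, h]; simp)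
    rw [shift2, Complex.exp_pi_mul_I] at h1
    apply ha
    linear_combination (-1 / 2 : ℂ) * h1
  obtain ⟨n, hn⟩ : ∃ n : ℤ, α⁻¹ = n := by
    have h1 := f2 (t₀ + α⁻¹ * (2 * Real.pi * Complex.I)) (by
      rw [shift, ← mul_assoc, mul_inv_cancel₀ hα0, one_mul, Complex.exp_two_pi_mul_I, mul_one])
    rw [shift2, mul_eq_left₀ ha, Complex.exp_eq_one_iff] at h1
    obtain ⟨n, hn⟩ := h1
    exact ⟨n, mul_right_cancel₀ hpi hn⟩
  have hkn : k * n = 1 := by
    have : (k : ℂ) * n = 1 := by rw [← hk, ← hn, mul_inv_cancel₀ hα0]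
    exact_mod_cast this
  have hα1 : α = 1 := by
    rcases Int.eq_one_or_neg_one_of_mul_eq_one hkn with h | h
    · rw [hk, h]; simp
    · exfalso
      have hαm : α = -1 := by rw [hk, h]; simp
      have ha0 : 0 < ‖a‖ := norm_pos_iff.2 ha
      obtain ⟨δ, hδ, h1⟩ := hs0 (‖a‖ / 2) (by positivity)
      set s : ℝ := ‖a‖ / δ with hs
      have hs0' : 0 < s := by positivity
      have h2 := (h1 _ (hζ1 (t₀ + s)).1).2 (by
        rw [sub_zero]
        show ‖v (t₀ + s)‖ < δ
        rw [shift, hαm, norm_mul, Complex.norm_exp]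
        simp only [neg_mul, one_mul, Complex.neg_re, Complex.ofReal_re]
        rw [Real.exp_neg, ← div_eq_mul_inv, div_lt_iff₀ (Real.exp_pos s)]
        have h3 := Real.add_one_le_exp s
        have h4 : δ * s = ‖a‖ := by rw [hs]; field_simp
        nlinarith)
      rw [sub_zero, (hζ1 _).2, shift2, norm_mul, Complex.norm_exp, Complex.ofReal_re] at h2
      have h3 := Real.one_le_exp hs0'.le
      nlinarith
  have hvg : ∀ t, deriv g (ζ t) = g (ζ t) := by
    intro t
    have h1 := shift (t - t₀)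
    have h2 := shift2 (t - t₀)
    rw [add_sub_cancel] at h1 h2
    rw [(hζ1 t).2, h2, ← one_mul (t - t₀), ← hα1]
    exact h1
  have hid : ∀ t, ζ t = t := by
    intro t
    have h1 : ∀ u, HasDerivAt (fun u => ζ u - u) 0 u := by
      intro u
      have h2 := (hζd u).sub (hasDerivAt_id u)
      rw [hvg u, div_self (by rw [(hζ1 u).2]; exact hne u), inv_one, sub_self] at h2
      exact h2
    have h5 := is_const_of_deriv_eq_zero (f := fun u => ζ u - u)
      (fun u => (h1 u).differentiableAt) (fun u => (h1 u).deriv) t 0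
    simp only [hζ0, sub_zero] at h5
    exact sub_eq_zero.1 h5
  exact ⟨fun w => hid w ▸ (hζ1 w).1, fun w => by rw [← (hζ1 w).2, hid w]⟩

theorem classify {g : ℂ → ℂ} {D : Set ℂ} (hg : Mer g D) {K : ℝ} (hK0 : 0 ≤ K) (hK : Bd g D K)
    {a b : ℂ} (ha : a ≠ 0) (hab : a ≠ b) (hsa : Sh g D a) (hsb : Sh g D b)
    (h0 : (0 : ℂ) ∈ D) (hc : g 0 ≠ 0) (hd : deriv g 0 ≠ 0) :
    (∀ w, w ∈ D) ∧ ∀ w, g w = g 0 * Complex.exp w := by
  by_cases hb : b = 0
  · subst hb; exact class2 hg hK0 hK ha hsa hsb h0 hc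
  · exact class1 hg hK0 hK ha hb hab hsa hsb h0 hd

end Pool.Agent.H716Z.SL
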