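import Mathlib

set_option autoImplicit false
open Filter Topology

namespace Pool.Agent.H716Z.SL

/-- The value on the Riemann sphere of a meromorphic function `f` at the point `z`: the limit in
the sphere of `f w` as `w → z`, `w ≠ z` (so it is `∞` at a pole). -/
noncomputable def sph (f : ℂ → ℂ) (z : ℂ) : OnePoint ℂ :=
  limUnder (𝓝[≠] z) (fun w => ((f w : ℂ) : OnePoint ℂ))

/-- `c` is a shared limit value of `f` and `g`: along every sequence `z n → ∞`, the values of `f`
tend to `c` in the sphere if and only if the values of `g` do. -/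
def SharedLimit (f g : ℂ → ℂ) (c : OnePoint ℂ) : Prop :=
  ∀ z : ℕ → ℂ, Tendsto (fun n => ‖z n‖) atTop atTop →
    (Tendsto (fun n => sph f (z n)) atTop (𝓝 c) ↔ Tendsto (fun n => sph g (z n)) atTop (𝓝 c))

/-- `f` is a rational function: it agrees with a quotient of two polynomials in a punctured
neighbourhood of every point. -/
def IsRationalFun (f : ℂ → ℂ) : Prop :=
  ∃ p q : Polynomial ℂ, q ≠ 0 ∧ ∀ z : ℂ, ∀ᶠ w in 𝓝[≠] z, f w = p.eval w / q.eval w

end Pool.Agent.H716Z.SL
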