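import Pool.Agent.H716Z.SL.Main
import Pool.Agent.H716Z.SL.Defs

set_option autoImplicit false
open Filter Topology Metric Bornology Set

namespace Pool.Agent.H716Z.SL

lemma poly_of_growth (n : ℕ) : ∀ (G : ℂ → ℂ), Differentiable ℂ G → ∀ C R : ℝ,
    (∀ z, R ≤ ‖z‖ → ‖G z‖ ≤ C * ‖z‖ ^ n) → ∃ p : Polynomial ℂ, ∀ z, G z = p.eval z := by
  induction n with
  | zero =>
    intro G hG C R h
    obtain ⟨B, hB⟩ := (isCompact_closedBall (0 : ℂ) R).exists_bound_of_continuousOn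
      hG.continuous.continuousOn
    have hb : ∀ z, ‖G z‖ ≤ max C B := by
      intro z
      rcases le_total R ‖z‖ with h1 | h1
      · have := h z h1
        rw [pow_zero, mul_one] at this
        exact this.trans (le_max_left _ _)
      · exact (hB z (by simpa using h1)).trans (le_max_right _ _)
    exact ⟨Polynomial.C (G 0), fun z => by rw [Polynomial.eval_C]; exact const_of_entire_bdd hG hb z 0⟩
  | succ n ih =>
    intro G hG C R h
    have hd : Differentiable ℂ (dslope G 0) := by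
      rw [← differentiableOn_univ, Complex.differentiableOn_dslope univ_mem]
      exact hG.differentiableOn
    obtain ⟨p, hp⟩ := ih (dslope G 0) hd (C + ‖G 0‖) (max R 1) (fun z hz => by
      have h1 : 1 ≤ ‖z‖ := (le_max_right _ _).trans hz
      have h2 := h z ((le_max_left _ _).trans hz)
      have hz0 : z ≠ 0 := norm_pos_iff.1 (by linarith)
      rw [dslope_of_ne _ hz0, slope_def_field, sub_zero, norm_div, div_le_iff₀ (by linarith)]
      have h3 : 1 ≤ ‖z‖ ^ (n + 1) := one_le_pow₀ h1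
      have h4 := norm_sub_le (G z) (G 0)
      have h5 : ‖G 0‖ ≤ ‖G 0‖ * ‖z‖ ^ (n + 1) := le_mul_of_one_le_right (norm_nonneg _) h3
      calc ‖G z - G 0‖ ≤ C * ‖z‖ ^ (n + 1) + ‖G 0‖ * ‖z‖ ^ (n + 1) := by linarith
        _ = (C + ‖G 0‖) * ‖z‖ ^ n * ‖z‖ := by ring)
    refine ⟨Polynomial.C (G 0) + Polynomial.X * p, fun z => ?_⟩
    have h1 := sub_smul_dslope G 0 z
    rw [sub_zero, smul_eq_mul, hp z] at h1
    simp only [Polynomial.eval_add, Polynomial.eval_C, Polynomial.eval_mul, Polynomial.eval_X]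
    linear_combination -h1

lemma poly_growth (q : Polynomial ℂ) : ∃ (C : ℝ) (n : ℕ), ∀ z : ℂ, 1 ≤ ‖z‖ →
    ‖q.eval z‖ ≤ C * ‖z‖ ^ n := by
  refine ⟨∑ i ∈ Finset.range (q.natDegree + 1), ‖q.coeff i‖, q.natDegree, fun z hz => ?_⟩
  rw [Polynomial.eval_eq_sum_range, Finset.sum_mul]
  refine (norm_sum_le _ _).trans (Finset.sum_le_sum fun i hi => ?_)
  rw [norm_mul, norm_pow]
  exact mul_le_mul_of_nonneg_left (pow_le_pow_right₀ hz (by
    rw [Finset.mem_range] at hi; omega)) (norm_nonneg _)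

lemma poly_ev_ne {q : Polynomial ℂ} (hq : q ≠ 0) (z : ℂ) : ∀ᶠ w in 𝓝[≠] z, q.eval w ≠ 0 := by
  have h : AnalyticAt ℂ (fun w => q.eval w) z := q.differentiable.analyticAt z
  rcases h.eventually_eq_zero_or_eventually_ne_zero with h1 | h1
  · exfalso
    apply hq
    apply Polynomial.eq_zero_of_infinite_isRoot
    exact infinite_of_mem_nhds z h1
  · exact h1

/-- Casorati-Weierstrass theorem at infinity. -/
lemma casorati {f : ℂ → ℂ} {D : Set ℂ} (hf : Mer f D) (hm : Meromorphic f)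
    (hr : ¬ IsRationalFun f) (a : ℂ) :
    ∀ δ > 0, ∀ R : ℝ, ∃ z ∈ D, R < ‖z‖ ∧ ‖f z - a‖ ≤ δ := by
  intro δ hδ R
  by_contra hc
  push Not at hc
  apply hr
  set F := rinv f D a with hF
  have hFm : ∀ z, MeromorphicAt F z := by
    intro z
    refine ((hm z).sub (MeromorphicAt.const a z)).inv.congr ?_
    filter_upwards [hf.ev_mem z] with v hv
    rw [hF, rinv_of_mem hv]; rfl
  have hfin : {z | ¬ AnalyticAt ℂ F z}.Finite := by
    by_contra hinf
    obtain ⟨x, -, hx⟩ := (Set.Infinite.exists_accPt_of_subset_isCompact hinf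
      (isCompact_closedBall (0 : ℂ) R) (fun z hz => by
        rw [mem_closedBall_zero_iff]
        by_contra h1
        exact hz (hf.rinv_an fun hD => ne_of_le_norm hδ (hc z hD (not_le.1 h1)).le)))
    rw [accPt_iff_frequently_nhdsNE] at hx
    obtain ⟨v, hv1, hv2⟩ := (hx.and_eventually (hFm x).eventually_analyticAt).exists
    exact hv1 hv2
  choose n hn using hFm
  set S := hfin.toFinset with hS
  set q : Polynomial ℂ := ∏ p ∈ S, (Polynomial.X - Polynomial.C p) ^ n p with hq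
  have hq0 : q ≠ 0 := Finset.prod_ne_zero_iff.2 fun p _ =>
    pow_ne_zero _ (Polynomial.X_sub_C_ne_zero p)
  have hG : Differentiable ℂ (fun z => q.eval z * F z) := by
    intro z
    by_cases hz : z ∈ S
    · have e : (fun w => q.eval w * F w) = fun w =>
          (∏ p ∈ S.erase z, (Polynomial.X - Polynomial.C p) ^ n p).eval w *
            ((w - z) ^ n z • F w) := by
        funext w
        rw [hq, ← Finset.mul_prod_erase S _ hz]
        simp only [Polynomial.eval_mul, Polynomial.eval_pow, Polynomial.eval_sub,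
          Polynomial.eval_X, Polynomial.eval_C, smul_eq_mul]
        ring
      rw [e]
      exact (Polynomial.differentiable _ z).mul (hn z).differentiableAt
    · have h1 : AnalyticAt ℂ F z := by
        by_contra h2
        exact hz (hfin.mem_toFinset.2 h2)
      exact (q.differentiable z).mul h1.differentiableAt
  obtain ⟨C, k, hC⟩ := poly_growth q
  obtain ⟨p, hp⟩ := poly_of_growth k _ hG (C * δ⁻¹) (max 1 (R + 1)) (fun z hz => by
    have h1 := hC z ((le_max_left _ _).trans hz)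
    have h2 : ‖F z‖ ≤ δ⁻¹ := norm_rinv_le hδ fun hD =>
      (hc z hD (by linarith [le_max_right 1 (R + 1)])).le
    rw [norm_mul]
    calc ‖q.eval z‖ * ‖F z‖ ≤ C * ‖z‖ ^ k * δ⁻¹ :=
          mul_le_mul h1 h2 (norm_nonneg _) ((norm_nonneg _).trans h1)
      _ = _ := by ring)
  have hp0 : p ≠ 0 := by
    intro h0
    set x : ℂ := ((|R| + 1 : ℝ) : ℂ) with hx
    have h1 : ∀ᶠ v in 𝓝[≠] x, R < ‖v‖ := by
      apply mem_nhdsWithin_of_mem_nhds
      refine continuousAt_const.eventually_lt continuous_norm.continuousAt ?_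
      rw [hx, Complex.norm_real, Real.norm_eq_abs, abs_of_pos (by positivity)]
      linarith [le_abs_self R]
    obtain ⟨v, h2, h3, h4⟩ := (h1.and ((hf.ev_mem x).and (poly_ev_ne hq0 x))).exists
    have h5 := hp v
    rw [h0, Polynomial.eval_zero, hF, rinv_of_mem h3] at h5
    exact mul_ne_zero h4 (inv_ne_zero (sub_ne_zero.2 (ne_of_le_norm hδ (hc v h3 h2).le))) h5
  refine ⟨Polynomial.C a * p + q, p, hp0, fun z => ?_⟩
  filter_upwards [hf.ev_mem z, poly_ev_ne hp0 z] with w h1 h2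
  have h5 := hp w
  rw [hF, rinv_of_mem h1] at h5
  have h6 : f w - a ≠ 0 := by
    intro h7
    rw [h7, inv_zero, mul_zero] at h5
    exact h2 h5.symm
  simp only [Polynomial.eval_add, Polynomial.eval_mul, Polynomial.eval_C]
  rw [eq_div_iff h2, ← h5]
  field_simp
  ring

lemma sph_congr {f g : ℂ → ℂ} (h : ∀ z, f =ᶠ[𝓝[≠] z] g) : sph f = sph g := by
  funext z
  unfold sph limUnder
  congr 1
  exact Filter.map_congr ((h z).mono fun w hw => by simp only [hw])

lemma sph_of_mem {g : ℂ → ℂ} {D : Set ℂ} (hg : Mer g D) {z : ℂ} (hz : z ∈ D) :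
    sph g z = ((g z : ℂ) : OnePoint ℂ) :=
  ((OnePoint.continuous_coe.tendsto _).comp
    ((hg.an z hz).continuousAt.tendsto.mono_left nhdsWithin_le_nhds)).limUnder_eq

lemma sph_of_not_mem {g : ℂ → ℂ} {D : Set ℂ} (hg : Mer g D) {z : ℂ} (hz : z ∉ D) :
    sph g z = OnePoint.infty := by
  have h := hg.pole z hz
  rw [Metric.cobounded_eq_cocompact, ← coclosedCompact_eq_cocompact] at h
  exact (OnePoint.tendsto_coe_infty.comp h).limUnder_eq

lemma tendsto_sph_coe {g : ℂ → ℂ} {D : Set ℂ} (hg : Mer g D) (z : ℕ → ℂ) (c : ℂ) :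
    Tendsto (fun n => sph g (z n)) atTop (𝓝 (c : OnePoint ℂ)) ↔
      ∀ ε > 0, ∀ᶠ n in atTop, z n ∈ D ∧ ‖g (z n) - c‖ < ε := by
  constructor
  · intro h ε hε
    have h1 : ((↑) : ℂ → OnePoint ℂ) '' ball c ε ∈ 𝓝 (c : OnePoint ℂ) := by
      rw [OnePoint.nhds_coe_eq]
      exact image_mem_map (ball_mem_nhds c hε)
    filter_upwards [h.eventually h1] with n hn
    obtain ⟨y, hy1, hy2⟩ := hn
    by_cases hD : z n ∈ D
    · rw [sph_of_mem hg hD, OnePoint.coe_eq_coe] at hy2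
      rw [mem_ball, dist_eq_norm, hy2] at hy1
      exact ⟨hD, hy1⟩
    · rw [sph_of_not_mem hg hD] at hy2
      exact absurd hy2 (OnePoint.coe_ne_infty y)
  · intro h
    have h1 : Tendsto (fun n => g (z n)) atTop (𝓝 c) :=
      Metric.tendsto_nhds.2 fun ε hε => (h ε hε).mono fun n hn => by
        rw [dist_eq_norm]; exact hn.2
    refine ((OnePoint.continuous_coe.tendsto _).comp h1).congr' ?_
    filter_upwards [h 1 one_pos] with n hn
    rw [sph_of_mem hg hn.1]; rfl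

lemma tendsto_sph_infty {g : ℂ → ℂ} {D : Set ℂ} (hg : Mer g D) (z : ℕ → ℂ) :
    Tendsto (fun n => sph g (z n)) atTop (𝓝 OnePoint.infty) ↔
      ∀ M : ℝ, ∀ᶠ n in atTop, z n ∈ D → M < ‖g (z n)‖ := by
  rw [OnePoint.hasBasis_nhds_infty.tendsto_right_iff]
  constructor
  · intro h M
    filter_upwards [h (closedBall 0 M) ⟨isClosed_closedBall, isCompact_closedBall 0 M⟩]
      with n hn hD
    rw [sph_of_mem hg hD] at hn
    rcases hn with ⟨y, hy1, hy2⟩ | hn
    · rw [OnePoint.coe_eq_coe] at hy2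
      rw [hy2, mem_compl_iff, mem_closedBall_zero_iff, not_le] at hy1
      exact hy1
    · exact absurd hn (OnePoint.coe_ne_infty _)
  · rintro h s ⟨-, hs⟩
    obtain ⟨M, hM⟩ := isBounded_iff_forall_norm_le.1 hs.isBounded
    filter_upwards [h M] with n hn
    by_cases hD : z n ∈ D
    · left
      exact ⟨g (z n), fun h1 => absurd (hM _ h1) (not_le.2 (hn hD)), (sph_of_mem hg hD).symm⟩
    · right
      exact sph_of_not_mem hg hD

lemma unif_of_seq {g h : ℂ → ℂ} {D : Set ℂ} (hg : Mer g D) (hh : Mer h D) {a : ℂ}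
    (hs : ∀ z : ℕ → ℂ, Tendsto (fun n => ‖z n‖) atTop atTop →
      Tendsto (fun n => sph g (z n)) atTop (𝓝 (a : OnePoint ℂ)) →
      Tendsto (fun n => sph h (z n)) atTop (𝓝 (a : OnePoint ℂ))) :
    ∀ ε > 0, ∃ δ > 0, ∃ R : ℝ, ∀ w ∈ D, R < ‖w‖ → ‖g w - a‖ < δ → ‖h w - a‖ ≤ ε := by
  intro ε hε
  by_contra hc
  push Not at hc
  choose z h1 h2 h3 h4 using fun n : ℕ => hc (1 / ((n : ℝ) + 1)) (by positivity) n
  have h5 := hs z (tendsto_atTop_mono (fun n => (h2 n).le) tendsto_natCast_atTop_atTop)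
    ((tendsto_sph_coe hg z a).2 fun η hη => by
      filter_upwards [(tendsto_one_div_add_atTop_nhds_zero_nat (𝕜 := ℝ)).eventually_lt_const hη]
        with n hn
      exact ⟨h1 n, (h3 n).trans hn⟩)
  obtain ⟨n, hn⟩ := ((tendsto_sph_coe hh z a).1 h5 ε hε).exists
  linarith [hn.2, h4 n]

lemma shI_of_shared {f : ℂ → ℂ} {D : Set ℂ} (hf : Mer f D) (hf' : Mer (deriv f) D) {a : ℂ}
    (hs : SharedLimit f (deriv f) a) : ShI f D a := by
  intro ε hε
  obtain ⟨δ₁, h1, R₁, h2⟩ := unif_of_seq hf hf' (fun z hz => (hs z hz).1) ε hε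
  obtain ⟨δ₂, h3, R₂, h4⟩ := unif_of_seq hf' hf (fun z hz => (hs z hz).2) ε hε
  exact ⟨min δ₁ δ₂, lt_min h1 h3, max R₁ R₂, fun w hw hR =>
    ⟨fun h => h2 w hw ((le_max_left _ _).trans_lt hR) (h.trans_le (min_le_left _ _)),
     fun h => h4 w hw ((le_max_right _ _).trans_lt hR) (h.trans_le (min_le_right _ _))⟩⟩

lemma transfer {g h : ℂ → ℂ} {D : Set ℂ} (hg : Mer g D) (hh : Mer h D)
    (H : ∀ M : ℝ, ∀ ε > 0, ∃ R : ℝ, ∀ z ∈ D, R < ‖z‖ → (‖g z‖ ≤ M ∨ ‖h z‖ ≤ M) → ‖g z - h z‖ ≤ ε)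
    (c : OnePoint ℂ) (z : ℕ → ℂ) (hz : Tendsto (fun n => ‖z n‖) atTop atTop)
    (ht : Tendsto (fun n => sph g (z n)) atTop (𝓝 c)) :
    Tendsto (fun n => sph h (z n)) atTop (𝓝 c) := by
  induction c using OnePoint.rec with
  | infty =>
    rw [tendsto_sph_infty hg] at ht
    rw [tendsto_sph_infty hh]
    intro M
    obtain ⟨R, hR⟩ := H M 1 one_pos
    filter_upwards [ht (M + 1), hz.eventually_gt_atTop R] with n h1 h2 hD
    by_contra hc
    have h3 := hR _ hD h2 (Or.inr (not_lt.1 hc))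
    have h4 : ‖g (z n)‖ ≤ ‖g (z n) - h (z n)‖ + ‖h (z n)‖ := norm_le_norm_sub_add _ _
    linarith [h1 hD, not_lt.1 hc]
  | coe c =>
    rw [tendsto_sph_coe hg] at ht
    rw [tendsto_sph_coe hh]
    intro ε hε
    obtain ⟨R, hR⟩ := H (‖c‖ + ε / 2) (ε / 2) (by positivity)
    filter_upwards [ht (ε / 2) (by positivity), hz.eventually_gt_atTop R] with n h1 h2
    have h4 : ‖g (z n)‖ ≤ ‖g (z n) - c‖ + ‖c‖ := norm_le_norm_sub_add _ _
    have h3 := hR _ h1.1 h2 (Or.inl (by linarith [h1.2]))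
    have h5 : ‖h (z n) - c‖ ≤ ‖h (z n) - g (z n)‖ + ‖g (z n) - c‖ :=
      norm_sub_le_norm_sub_add_norm_sub _ _ _
    rw [norm_sub_rev (h (z n)) (g (z n))] at h5
    exact ⟨h1.1, by linarith [h1.2]⟩

lemma mer_of_nf {f : ℂ → ℂ} (hf : MeromorphicNFOn f univ) :
    Mer f {z | AnalyticAt ℂ f z} ∧ Mer (deriv f) {z | AnalyticAt ℂ f z} := by
  have hneg : ∀ w, w ∉ {z | AnalyticAt ℂ f z} → meromorphicOrderAt f w < 0 := fun w hw =>
    not_le.1 fun h => hw ((hf (mem_univ w)).meromorphicOrderAt_nonneg_iff_analyticAt.1 h)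
  have hev : ∀ w, ∀ᶠ v in 𝓝[≠] w, v ∈ {z | AnalyticAt ℂ f z} := fun w =>
    (hf (mem_univ w)).meromorphicAt.eventually_analyticAt
  refine ⟨⟨isOpen_analyticAt ℂ f, fun w hw => hw, fun w _ => hev w,
    fun w hw => tendsto_cobounded_of_meromorphicOrderAt_neg (hneg w hw)⟩,
    ⟨isOpen_analyticAt ℂ f, fun w hw => AnalyticAt.deriv hw, fun w _ => hev w, fun w hw => ?_⟩⟩
  have h1 := hneg w hw
  obtain ⟨n, hn⟩ := WithTop.ne_top_iff_exists.1 h1.ne_top
  rw [← hn] at h1
  have h2 : n < 0 := by exact_mod_cast h1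
  apply tendsto_cobounded_of_meromorphicOrderAt_neg
  rw [meromorphicOrderAt_deriv_eq_sub_one (n := n) (by exact_mod_cast h2.ne) hn.symm]
  exact_mod_cast (by omega : n - 1 < 0)

theorem final_nf {f : ℂ → ℂ} (hf : MeromorphicNFOn f univ) (hr : ¬ IsRationalFun f) {a b : ℂ}
    (ha0 : a ≠ 0) (hab : a ≠ b) (ha : SharedLimit f (deriv f) a) (hb : SharedLimit f (deriv f) b)
    (c : OnePoint ℂ) : SharedLimit f (deriv f) c := by
  obtain ⟨h1, h2⟩ := mer_of_nf hf
  have H := main_fin h1 h2 ha0 hab (shI_of_shared h1 h2 ha) (shI_of_shared h1 h2 hb)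
    (casorati h1 (fun z => (hf (mem_univ z)).meromorphicAt) hr a)
  intro z hz
  refine ⟨transfer h1 h2 H c z hz, transfer h2 h1 (fun M ε hε => ?_) c z hz⟩
  obtain ⟨R, hR⟩ := H M ε hε
  exact ⟨R, fun w hw h3 h4 => by rw [norm_sub_rev]; exact hR w hw h3 h4.symm⟩

theorem final {f : ℂ → ℂ} (hf : Meromorphic f) (hr : ¬ IsRationalFun f) {a b : ℂ}
    (hab : a ≠ b) (ha : SharedLimit f (deriv f) a) (hb : SharedLimit f (deriv f) b)
    (c : OnePoint ℂ) : SharedLimit f (deriv f) c := by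
  have hm : MeromorphicOn f univ := fun z _ => hf z
  set g := toMeromorphicNFOn f univ with hg
  have e : ∀ z, g =ᶠ[𝓝[≠] z] f := fun z => hm.toMeromorphicNFOn_eq_self_on_nhdsNE (mem_univ z)
  have e1 : sph f = sph g := (sph_congr e).symm
  have e2 : sph (deriv f) = sph (deriv g) := (sph_congr fun z => (e z).nhdsNE_deriv).symm
  have hr' : ¬ IsRationalFun g := by
    rintro ⟨p, q, hq, h⟩
    refine hr ⟨p, q, hq, fun z => ?_⟩
    filter_upwards [h z, e z] with w h1 h2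
    rw [← h2, h1]
  unfold SharedLimit at ha hb ⊢
  rw [e1, e2] at ha hb ⊢
  by_cases ha0 : a = 0
  · exact final_nf (meromorphicNFOn_toMeromorphicNFOn f univ) hr'
      (fun h => hab (ha0.trans h.symm)) hab.symm hb ha c
  · exact final_nf (meromorphicNFOn_toMeromorphicNFOn f univ) hr' ha0 hab ha hb c

end Pool.Agent.H716Z.SL
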