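import Pool.Agent.H716Z.SL.Class2

set_option autoImplicit false
open Filter Topology Metric Bornology Set

namespace Pool.Agent.H716Z.SL

/-- uniform sharing near infinity -/
def ShI (f : ℂ → ℂ) (D : Set ℂ) (a : ℂ) : Prop :=
  ∀ ε > 0, ∃ δ > 0, ∃ R : ℝ, ∀ w ∈ D, R < ‖w‖ → (‖f w - a‖ < δ → ‖deriv f w - a‖ ≤ ε) ∧
    (‖deriv f w - a‖ < δ → ‖f w - a‖ ≤ ε)

lemma normal {f : ℂ → ℂ} {D : Set ℂ} {a : ℂ} (hf : Mer f D) (hs : ShI f D a) :
    ∃ δ > 0, ∃ r > 0, ∃ R : ℝ, ∀ w : ℂ, R < ‖w‖ → (∀ v ∈ ball w r, v ∈ D ∧ ‖f v - a‖ < δ) ∨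
      (∀ v ∈ ball w r, v ∈ D → δ / 4 ≤ ‖f v - a‖) := by
  obtain ⟨δ, hδ, R, h1⟩ := hs 1 one_pos
  set A : ℝ := ‖a‖ + 1 with hA
  have hA0 : 0 < A := by positivity
  set r : ℝ := δ / (8 * A) with hr
  have hr0 : 0 < r := by positivity
  refine ⟨δ, hδ, r, hr0, R + 3 * r, fun w hw => ?_⟩
  by_cases hc : ∀ v ∈ ball w r, v ∈ D → δ / 4 ≤ ‖f v - a‖
  · exact Or.inr hc
  · left
    push Not at hc
    obtain ⟨u, hu1, hu2, hu3⟩ := hc
    rw [mem_ball, dist_eq_norm] at hu1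
    have hst := hf.stay (β := a) (w := u) (δ := δ) (A := A) (r := 2 * r) hA0.le
      (fun v hv hvD h => by
        rw [mem_ball, dist_eq_norm] at hv
        have h2 : ‖w‖ ≤ ‖w - u‖ + ‖u‖ := norm_le_norm_sub_add _ _
        have h3 : ‖u‖ ≤ ‖u - v‖ + ‖v‖ := norm_le_norm_sub_add _ _
        rw [norm_sub_rev] at h2 h3
        have h4 := (h1 v hvD (by linarith)).1 h
        have h5 : ‖deriv f v‖ ≤ ‖deriv f v - a‖ + ‖a‖ := norm_le_norm_sub_add _ _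
        linarith) hu2 (by
        have : A * (2 * r) = δ / 4 := by rw [hr]; field_simp; ring
        linarith)
    intro v hv
    rw [mem_ball, dist_eq_norm] at hv
    have h6 : v ∈ ball u (2 * r) := by
      rw [mem_ball, dist_eq_norm]
      have h3 : ‖v - u‖ ≤ ‖v - w‖ + ‖w - u‖ := norm_sub_le_norm_sub_add_norm_sub _ _ _
      rw [norm_sub_rev w u] at h3
      linarith
    exact ⟨(hst v h6).1, (hst v h6).2.2⟩

lemma ne_of_le_norm {x a : ℂ} {δ : ℝ} (hδ : 0 < δ) (h : δ ≤ ‖x - a‖) : x ≠ a := by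
  intro he
  rw [he, sub_self, norm_zero] at h
  linarith

lemma bdI {f : ℂ → ℂ} {D : Set ℂ} {a : ℂ} (hf : Mer f D) (hs : ShI f D a) :
    ∃ K ≥ 0, ∃ R : ℝ, ∀ w ∈ D, R < ‖w‖ → ‖deriv f w‖ ≤ K * (1 + ‖f w‖ ^ 2) := by
  obtain ⟨δ, hδ, r, hr, R, h⟩ := normal hf hs
  refine ⟨2 * (‖a‖ + δ) / r + 2 * (δ / 4)⁻¹ / r * (2 * (1 + ‖a‖ ^ 2)), by positivity, R,
    fun w hw hR => ?_⟩
  have p1 : 0 ≤ 2 * (‖a‖ + δ) / r := by positivity
  have p2 : 0 ≤ 2 * (δ / 4)⁻¹ / r := by positivity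
  have p3 : 0 ≤ ‖f w‖ ^ 2 := by positivity
  have p4 : 0 ≤ 2 * (δ / 4)⁻¹ / r * (2 * (1 + ‖a‖ ^ 2)) := by positivity
  rcases h w hR with h1 | h1
  · have h2 := deriv_center (h := f) (c := w) (M := ‖a‖ + δ) hr
      (fun u hu => (hf.an u (h1 u hu).1).differentiableAt.differentiableWithinAt)
      (fun u hu => by
        have h3 : ‖f u‖ ≤ ‖f u - a‖ + ‖a‖ := norm_le_norm_sub_add _ _
        linarith [(h1 u hu).2])
    nlinarith
  · have hδ4 : 0 < δ / 4 := by positivity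
    have h2 := deriv_center (h := rinv f D a) (c := w) (M := (δ / 4)⁻¹) hr
      (fun u hu => (hf.rinv_an fun huD =>
        ne_of_le_norm hδ4 (h1 u hu huD)).differentiableAt.differentiableWithinAt)
      (fun u hu => norm_rinv_le hδ4 (h1 u hu))
    have hne : f w - a ≠ 0 := sub_ne_zero.2 (ne_of_le_norm hδ4 (h1 w (mem_ball_self hr) hw))
    have h3 : rinv f D a =ᶠ[𝓝 w] (fun v => f v - a)⁻¹ := by
      filter_upwards [hf.op.mem_nhds hw] with v hv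
      rw [rinv_of_mem hv]; rfl
    have h4 := ((hf.an w hw).differentiableAt.hasDerivAt.sub_const a).inv hne
    rw [h3.deriv_eq, h4.deriv, norm_div, norm_neg, norm_pow,
      div_le_iff₀ (pow_pos (norm_pos_iff.2 hne) 2)] at h2
    have h5 : ‖f w - a‖ ^ 2 ≤ 2 * (1 + ‖a‖ ^ 2) * (1 + ‖f w‖ ^ 2) := by
      have h6 : ‖f w - a‖ ^ 2 ≤ (‖f w‖ + ‖a‖) ^ 2 :=
        pow_le_pow_left₀ (norm_nonneg _) (norm_sub_le _ _) 2
      nlinarith [sq_nonneg (‖f w‖ - ‖a‖), mul_nonneg (sq_nonneg ‖a‖) p3]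
    have h7 := mul_le_mul_of_nonneg_left h5 p2
    nlinarith

lemma ultra_pt (𝒰 : Ultrafilter ℕ) {x : ℕ → ℂ} {M : ℝ} (h : ∀ᶠ n in (𝒰 : Filter ℕ), ‖x n‖ ≤ M) :
    Tendsto x 𝒰 (𝓝 (limUnder 𝒰 x)) := by
  obtain ⟨y, -, hy⟩ := (isCompact_closedBall (0 : ℂ) M).ultrafilter_le_nhds (𝒰.map x)
    (le_principal_iff.2 (by
      rw [Ultrafilter.coe_map, Filter.mem_map]
      filter_upwards [h] with n hn
      simpa using hn))
  exact tendsto_nhds_limUnder ⟨y, hy⟩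

/-- Montel's theorem along an ultrafilter. -/
lemma ultra_lim (𝒰 : Ultrafilter ℕ) {h : ℕ → ℂ → ℂ} {w : ℂ} {r M : ℝ}
    (H : ∀ᶠ n in (𝒰 : Filter ℕ), DifferentiableOn ℂ (h n) (ball w r) ∧ ∀ v ∈ ball w r, ‖h n v‖ ≤ M) :
    TendstoLocallyUniformlyOn h (fun v => limUnder 𝒰 (fun n => h n v)) 𝒰 (ball w r) := by
  have hpt : ∀ v ∈ ball w r, Tendsto (fun n => h n v) 𝒰 (𝓝 (limUnder 𝒰 (fun n => h n v))) :=
    fun v hv => ultra_pt 𝒰 (H.mono fun n hn => hn.2 v hv)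
  rw [Metric.tendstoLocallyUniformlyOn_iff]
  intro ε hε x hx
  obtain ⟨η, hη, hsub⟩ := Metric.isOpen_iff.1 isOpen_ball x hx
  set L : ℝ := |2 * M / η| + 1 with hL
  have hL0 : 0 < L := by positivity
  have hlip : ∀ᶠ n in (𝒰 : Filter ℕ), ∀ y ∈ ball x η, ‖h n y - h n x‖ ≤ L * ‖y - x‖ := by
    filter_upwards [H] with n hn y hy
    refine (lip_center (hn.1.mono hsub) (fun v hv => hn.2 v (hsub hv)) hy).trans ?_
    apply mul_le_mul_of_nonneg_right _ (norm_nonneg _)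
    linarith [le_abs_self (2 * M / η)]
  refine ⟨ball x (min η (ε / (4 * L))), mem_nhdsWithin_of_mem_nhds
    (ball_mem_nhds x (lt_min hη (by positivity))), ?_⟩
  have h1 := (Metric.tendsto_nhds.1 (hpt x hx)) (ε / 4) (by positivity)
  filter_upwards [hlip, h1] with n hn1 hn2 y hy
  have hy1 : y ∈ ball x η := ball_subset_ball (min_le_left _ _) hy
  have hy2 : L * ‖y - x‖ ≤ ε / 4 := by
    rw [mem_ball, dist_eq_norm] at hy
    have h3 : ‖y - x‖ ≤ ε / (4 * L) := hy.le.trans (min_le_right _ _)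
    calc L * ‖y - x‖ ≤ L * (ε / (4 * L)) := by gcongr
      _ = ε / 4 := by field_simp
  have h4 : ‖limUnder 𝒰 (fun n => h n y) - limUnder 𝒰 (fun n => h n x)‖ ≤ L * ‖y - x‖ :=
    le_of_tendsto ((hpt y (hsub hy1)).sub (hpt x hx)).norm (hlip.mono fun m hm => hm y hy1)
  have h5 := hn1 y hy1
  rw [dist_eq_norm] at hn2 ⊢
  have h6 : ‖limUnder 𝒰 (fun n => h n y) - h n y‖ ≤
      ‖limUnder 𝒰 (fun n => h n y) - limUnder 𝒰 (fun n => h n x)‖ +
        ‖limUnder 𝒰 (fun n => h n x) - h n y‖ := norm_sub_le_norm_sub_add_norm_sub _ _ _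
  have h7 : ‖limUnder 𝒰 (fun n => h n x) - h n y‖ ≤
      ‖limUnder 𝒰 (fun n => h n x) - h n x‖ + ‖h n x - h n y‖ :=
    norm_sub_le_norm_sub_add_norm_sub _ _ _
  rw [norm_sub_rev (h n x) (h n y), norm_sub_rev _ (h n x)] at h7
  linarith

/-- the limit function along an ultrafilter -/
noncomputable def glim (f : ℂ → ℂ) (𝒰 : Ultrafilter ℕ) (z : ℕ → ℂ) (v : ℂ) : ℂ :=
  limUnder 𝒰 (fun n => f (z n + v))

/-- the set where the translates are locally bounded -/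
def Elim (f : ℂ → ℂ) (D : Set ℂ) (𝒰 : Ultrafilter ℕ) (z : ℕ → ℂ) : Set ℂ :=
  {w | ∃ r > 0, ∃ M : ℝ, ∀ᶠ n in (𝒰 : Filter ℕ), ∀ v ∈ ball w r, z n + v ∈ D ∧ ‖f (z n + v)‖ ≤ M}

lemma Elim_open (f : ℂ → ℂ) (D : Set ℂ) (𝒰 : Ultrafilter ℕ) (z : ℕ → ℂ) :
    IsOpen (Elim f D 𝒰 z) := by
  rw [Metric.isOpen_iff]
  rintro w ⟨r, hr, M, h⟩
  refine ⟨r, hr, fun u hu => ?_⟩
  obtain ⟨η, hη, hsub⟩ := Metric.isOpen_iff.1 isOpen_ball u hu
  exact ⟨η, hη, M, h.mono fun n hn v hv => hn v (hsub hv)⟩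

lemma an_shift {h : ℂ → ℂ} {c v : ℂ} (H : AnalyticAt ℂ h (c + v)) :
    DifferentiableAt ℂ (fun u => h (c + u)) v :=
  H.differentiableAt.comp v ((differentiableAt_const c).add differentiableAt_id)

lemma Elim_conv {f : ℂ → ℂ} {D : Set ℂ} (hf : Mer f D) {𝒰 : Ultrafilter ℕ} {z : ℕ → ℂ} {w : ℂ}
    (hw : w ∈ Elim f D 𝒰 z) : ∃ r > 0, (∀ᶠ n in (𝒰 : Filter ℕ), ∀ v ∈ ball w r, z n + v ∈ D) ∧
      DifferentiableOn ℂ (glim f 𝒰 z) (ball w r) ∧
      TendstoLocallyUniformlyOn (fun n v => f (z n + v)) (glim f 𝒰 z) 𝒰 (ball w r) ∧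
      TendstoLocallyUniformlyOn (fun n v => deriv f (z n + v)) (deriv (glim f 𝒰 z)) 𝒰
        (ball w r) := by
  obtain ⟨r, hr, M, h⟩ := hw
  have hd : ∀ᶠ n in (𝒰 : Filter ℕ), DifferentiableOn ℂ (fun v => f (z n + v)) (ball w r) :=
    h.mono fun n hn v hv => (an_shift (hf.an _ (hn v hv).1)).differentiableWithinAt
  have h1 : TendstoLocallyUniformlyOn (fun n v => f (z n + v)) (glim f 𝒰 z) 𝒰 (ball w r) :=
    ultra_lim 𝒰 (M := M) ((hd.and h).mono fun n hn => ⟨hn.1, fun v hv => (hn.2 v hv).2⟩)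
  refine ⟨r, hr, h.mono fun n hn v hv => (hn v hv).1, h1.differentiableOn hd isOpen_ball, h1, ?_⟩
  have h2 := h1.deriv hd isOpen_ball
  have e : (deriv ∘ fun n v => f (z n + v)) = fun n v => deriv f (z n + v) := by
    funext n v
    exact deriv_comp_const_add f (z n) v
  rwa [e] at h2

lemma Elim_pt {f : ℂ → ℂ} {D : Set ℂ} (hf : Mer f D) {𝒰 : Ultrafilter ℕ} {z : ℕ → ℂ} {w : ℂ}
    (hw : w ∈ Elim f D 𝒰 z) : (∀ᶠ n in (𝒰 : Filter ℕ), z n + w ∈ D) ∧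
      Tendsto (fun n => f (z n + w)) 𝒰 (𝓝 (glim f 𝒰 z w)) ∧
      Tendsto (fun n => deriv f (z n + w)) 𝒰 (𝓝 (deriv (glim f 𝒰 z) w)) := by
  obtain ⟨r, hr, h1, -, h2, h3⟩ := Elim_conv hf hw
  exact ⟨h1.mono fun n hn => hn w (mem_ball_self hr), h2.tendsto_at (mem_ball_self hr),
    h3.tendsto_at (mem_ball_self hr)⟩

lemma far {𝒰 : Ultrafilter ℕ} {z : ℕ → ℂ} (hz : Tendsto (fun n => ‖z n‖) 𝒰 atTop) (w : ℂ) (R : ℝ) :
    ∀ᶠ n in (𝒰 : Filter ℕ), R < ‖z n + w‖ := by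
  filter_upwards [hz.eventually_gt_atTop (R + ‖w‖)] with n hn
  have := norm_sub_le (z n + w) w
  rw [add_sub_cancel_right] at this
  linarith

lemma pole_chart {f : ℂ → ℂ} {D : Set ℂ} {a : ℂ} (hf : Mer f D) (hs : ShI f D a)
    {𝒰 : Ultrafilter ℕ} {z : ℕ → ℂ} (hz : Tendsto (fun n => ‖z n‖) 𝒰 atTop) :
    ∃ r > 0, ∀ w, w ∉ Elim f D 𝒰 z → ∃ H : ℂ → ℂ, AnalyticOnNhd ℂ H (ball w r) ∧
      ∀ v ∈ ball w r, (H v ≠ 0 ↔ v ∈ Elim f D 𝒰 z) ∧
        (H v ≠ 0 → glim f 𝒰 z v = a + (H v)⁻¹) := by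
  obtain ⟨δ, hδ, r, hr, R, h⟩ := normal hf hs
  have hδ4 : 0 < δ / 4 := by positivity
  refine ⟨r, hr, fun w hw => ?_⟩
  have hsh : ∀ n v, v ∈ ball w r → z n + v ∈ ball (z n + w) r := by
    intro n v hv
    rw [mem_ball, dist_eq_norm] at hv ⊢
    rwa [add_sub_add_left_eq_sub]
  have h2 : ∀ᶠ n in (𝒰 : Filter ℕ), ∀ v ∈ ball w r, z n + v ∈ D → δ / 4 ≤ ‖f (z n + v) - a‖ := by
    have h3 : ∀ᶠ n in (𝒰 : Filter ℕ), (∀ v ∈ ball (z n + w) r, v ∈ D ∧ ‖f v - a‖ < δ) ∨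
        (∀ v ∈ ball (z n + w) r, v ∈ D → δ / 4 ≤ ‖f v - a‖) :=
      (far hz w R).mono fun n hn => h _ hn
    rcases Ultrafilter.eventually_or.1 h3 with h4 | h4
    · exfalso
      refine hw ⟨r, hr, ‖a‖ + δ, h4.mono fun n hn v hv => ⟨(hn _ (hsh n v hv)).1, ?_⟩⟩
      have h5 := (hn _ (hsh n v hv)).2
      have h6 : ‖f (z n + v)‖ ≤ ‖f (z n + v) - a‖ + ‖a‖ := norm_le_norm_sub_add _ _
      linarith
    · exact h4.mono fun n hn v hv => hn _ (hsh n v hv)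
  have hd : ∀ᶠ n in (𝒰 : Filter ℕ),
      DifferentiableOn ℂ (fun v => rinv f D a (z n + v)) (ball w r) :=
    h2.mono fun n hn v hv =>
      (an_shift (hf.rinv_an fun hD => ne_of_le_norm hδ4 (hn v hv hD))).differentiableWithinAt
  have h1 := ultra_lim 𝒰 (h := fun n v => rinv f D a (z n + v)) (M := (δ / 4)⁻¹)
    ((hd.and h2).mono fun n hn => ⟨hn.1, fun v hv => norm_rinv_le hδ4 (hn.2 v hv)⟩)
  set H : ℂ → ℂ := fun v => limUnder 𝒰 (fun n => rinv f D a (z n + v)) with hH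
  have hHd : DifferentiableOn ℂ H (ball w r) := h1.differentiableOn hd isOpen_ball
  have hHa := hHd.analyticOnNhd isOpen_ball
  refine ⟨H, hHa, fun v hv => ?_⟩
  have hE : v ∈ Elim f D 𝒰 z → (glim f 𝒰 z v - a) * H v = 1 := by
    intro hvE
    obtain ⟨e1, e2, -⟩ := Elim_pt hf hvE
    have e3 := (e2.sub_const a).mul (h1.tendsto_at hv)
    refine tendsto_nhds_unique e3 (tendsto_const_nhds.congr' ?_)
    filter_upwards [e1, h2] with n hn1 hn2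
    rw [rinv_of_mem hn1, mul_inv_cancel₀ (sub_ne_zero.2 (ne_of_le_norm hδ4 (hn2 v hv hn1)))]
  have hE2 : H v ≠ 0 → v ∈ Elim f D 𝒰 z := by
    intro hne
    have hp : 0 < ‖H v‖ := norm_pos_iff.2 hne
    obtain ⟨t, ht, e1⟩ := Metric.tendstoLocallyUniformlyOn_iff.1 h1 (‖H v‖ / 4) (by positivity) v hv
    rw [nhdsWithin_eq_nhds.2 (isOpen_ball.mem_nhds hv)] at ht
    have e2 : ∀ᶠ u in 𝓝 v, dist (H u) (H v) < ‖H v‖ / 4 :=
      Metric.tendsto_nhds.1 (hHa v hv).continuousAt.tendsto _ (by positivity)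
    obtain ⟨η, hη, e3⟩ := Metric.eventually_nhds_iff_ball.1 (e2.and ht)
    refine ⟨η, hη, ‖a‖ + (‖H v‖ / 2)⁻¹, e1.mono fun n hn u hu => ?_⟩
    have e4 := hn u (e3 u hu).2
    have e5 := (e3 u hu).1
    rw [dist_eq_norm] at e4 e5
    have e6 : ‖H v‖ / 2 ≤ ‖rinv f D a (z n + u)‖ := by
      have e7 : ‖H v‖ ≤ ‖H v - H u‖ + ‖H u‖ := norm_le_norm_sub_add _ _
      have e8 : ‖H u‖ ≤ ‖H u - rinv f D a (z n + u)‖ + ‖rinv f D a (z n + u)‖ :=
        norm_le_norm_sub_add _ _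
      rw [norm_sub_rev] at e7
      linarith
    have e9 : z n + u ∈ D := by
      by_contra hc
      rw [rinv_of_not_mem hc, norm_zero] at e6
      linarith
    refine ⟨e9, ?_⟩
    rw [rinv_of_mem e9, norm_inv] at e6
    have e10 : ‖f (z n + u) - a‖ ≤ (‖H v‖ / 2)⁻¹ := le_inv_of_le_inv₀ (by positivity) e6
    have h6 : ‖f (z n + u)‖ ≤ ‖f (z n + u) - a‖ + ‖a‖ := norm_le_norm_sub_add _ _
    linarith
  refine ⟨⟨hE2, fun hvE h0 => ?_⟩, fun hne => ?_⟩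
  · have := hE hvE
    rw [h0, mul_zero] at this
    exact zero_ne_one this
  · have := hE (hE2 hne)
    field_simp
    linear_combination this

lemma limit_mer {f : ℂ → ℂ} {D : Set ℂ} {a : ℂ} (hf : Mer f D) (hs : ShI f D a)
    {𝒰 : Ultrafilter ℕ} {z : ℕ → ℂ} (hz : Tendsto (fun n => ‖z n‖) 𝒰 atTop)
    (h0 : (0 : ℂ) ∈ Elim f D 𝒰 z) : Mer (glim f 𝒰 z) (Elim f D 𝒰 z) := by
  obtain ⟨r, hr, hch⟩ := pole_chart hf hs hz
  set E := Elim f D 𝒰 z with hE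
  have hEo : IsOpen E := Elim_open f D 𝒰 z
  have hZ : interior Eᶜ = ∅ := by
    have hcl : IsClosed (interior Eᶜ) := by
      apply isClosed_of_closure_subset
      intro w hw
      have hwE : w ∉ E := fun h => by
        obtain ⟨u, hu1, hu2⟩ := mem_closure_iff_nhds.1 hw E (hEo.mem_nhds h)
        exact interior_subset hu2 hu1
      obtain ⟨H, hHa, hH⟩ := hch w hwE
      obtain ⟨u, hu1, hu2⟩ := mem_closure_iff_nhds.1 hw _ (ball_mem_nhds w hr)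
      have h1 : H =ᶠ[𝓝 u] 0 := by
        filter_upwards [mem_interior_iff_mem_nhds.1 hu2, isOpen_ball.mem_nhds hu1] with v hv1 hv2
        by_contra hc
        exact hv1 ((hH v hv2).1.1 hc)
      have h2 := hHa.eqOn_zero_of_preconnected_of_eventuallyEq_zero
        (convex_ball w r).isPreconnected hu1 h1
      rw [mem_interior_iff_mem_nhds]
      filter_upwards [ball_mem_nhds w hr] with v hv hvE
      exact (hH v hv).1.2 hvE (h2 hv)
    rcases isClopen_iff.1 ⟨hcl, isOpen_interior⟩ with h | h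
    · exact h
    · exfalso
      have : (0 : ℂ) ∈ interior Eᶜ := h ▸ mem_univ _
      exact interior_subset this h0
  have key : ∀ w, w ∉ E → ∃ H : ℂ → ℂ, Tendsto H (𝓝[≠] w) (𝓝[≠] 0) ∧
      ∀ᶠ v in 𝓝[≠] w, v ∈ E ∧ glim f 𝒰 z v = a + (H v)⁻¹ := by
    intro w hw
    obtain ⟨H, hHa, hH⟩ := hch w hw
    have hw0 : H w = 0 := by
      by_contra hc
      exact hw ((hH w (mem_ball_self hr)).1.1 hc)
    have hne : ∀ᶠ v in 𝓝[≠] w, H v ≠ 0 := by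
      rcases (hHa w (mem_ball_self hr)).eventually_eq_zero_or_eventually_ne_zero with h | h
      · exfalso
        have : w ∈ interior Eᶜ := by
          rw [mem_interior_iff_mem_nhds]
          filter_upwards [h, ball_mem_nhds w hr] with v hv1 hv2 hvE
          exact (hH v hv2).1.2 hvE hv1
        rw [hZ] at this
        exact this
      · exact h
    refine ⟨H, tendsto_nhdsWithin_iff.2 ⟨?_, hne⟩, ?_⟩
    · rw [← hw0]
      exact (hHa w (mem_ball_self hr)).continuousAt.tendsto.mono_left nhdsWithin_le_nhds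
    · filter_upwards [hne, mem_nhdsWithin_of_mem_nhds (ball_mem_nhds w hr)] with v hv1 hv2
      exact ⟨(hH v hv2).1.1 hv1, (hH v hv2).2 hv1⟩
  refine ⟨hEo, fun w hw => ?_, fun w hw => ?_, fun w hw => ?_⟩
  · obtain ⟨ρ, hρ, -, h1, -⟩ := Elim_conv hf hw
    exact h1.analyticAt (ball_mem_nhds w hρ)
  · obtain ⟨H, -, h2⟩ := key w hw
    exact h2.mono fun v hv => hv.1
  · obtain ⟨H, h1, h2⟩ := key w hw
    have h3 : Tendsto (fun v => (H v)⁻¹) (𝓝[≠] w) (cobounded ℂ) :=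
      (tendsto_inv₀_nhdsNE_zero (α := ℂ)).comp h1
    have h4 : Tendsto (fun v => a + (H v)⁻¹) (𝓝[≠] w) (cobounded ℂ) :=
      (tendsto_const_add_cobounded a).comp h3
    exact h4.congr' (h2.mono fun v hv => hv.2.symm)

lemma limit_sh {f : ℂ → ℂ} {D : Set ℂ} {b : ℂ} (hf : Mer f D) (hs : ShI f D b)
    {𝒰 : Ultrafilter ℕ} {z : ℕ → ℂ} (hz : Tendsto (fun n => ‖z n‖) 𝒰 atTop) :
    Sh (glim f 𝒰 z) (Elim f D 𝒰 z) b := by
  intro ε hε
  obtain ⟨δ, hδ, R, h⟩ := hs ε hε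
  refine ⟨δ, hδ, fun w hw => ?_⟩
  obtain ⟨e1, e2, e3⟩ := Elim_pt hf hw
  have e4 := (e2.sub_const b).norm
  have e5 := (e3.sub_const b).norm
  constructor
  · intro h1
    refine le_of_tendsto e5 ?_
    filter_upwards [e1, far hz w R, e4.eventually_lt_const h1] with n h2 h3 h4
    exact (h _ h2 h3).1 h4
  · intro h1
    refine le_of_tendsto e4 ?_
    filter_upwards [e1, far hz w R, e5.eventually_lt_const h1] with n h2 h3 h4
    exact (h _ h2 h3).2 h4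

/-- Near points where `f` is close to `a`, the function looks like an exponential. -/
theorem near_exp {f : ℂ → ℂ} {D : Set ℂ} {a b : ℂ} (hf : Mer f D) (ha : a ≠ 0) (hab : a ≠ b)
    (hsa : ShI f D a) (hsb : ShI f D b) : ∃ δ₀ > 0, δ₀ ≤ ‖a‖ / 20 ∧ ∀ L : ℝ, ∀ ε > 0, ∃ R : ℝ,
      ∀ z ∈ D, R < ‖z‖ → ‖f z - a‖ ≤ δ₀ → ∀ w : ℂ, ‖w‖ ≤ L → z + w ∈ D ∧
        ‖f (z + w) - f z * Complex.exp w‖ < ε ∧ ‖deriv f (z + w) - f z * Complex.exp w‖ < ε := by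
  have ha0 : 0 < ‖a‖ := norm_pos_iff.2 ha
  obtain ⟨δ, hδ, r, hr, R, h⟩ := normal hf hsa
  obtain ⟨δ', hδ', R', h'⟩ := hsa (‖a‖ / 2) (by positivity)
  obtain ⟨K, hK0, R'', hK⟩ := bdI hf hsa
  refine ⟨min (‖a‖ / 20) (min (δ / 8) (δ' / 2)), by positivity, min_le_left _ _,
    fun L ε hε => ?_⟩
  set δ₀ := min (‖a‖ / 20) (min (δ / 8) (δ' / 2)) with hδ₀
  have d1 : δ₀ ≤ ‖a‖ / 20 := min_le_left _ _
  have d2 : δ₀ ≤ δ / 8 := (min_le_right _ _).trans (min_le_left _ _)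
  have d3 : δ₀ ≤ δ' / 2 := (min_le_right _ _).trans (min_le_right _ _)
  by_contra hc
  push Not at hc
  choose z hzD hzR hza w hwL hw using fun n : ℕ => hc n
  set 𝒰 : Ultrafilter ℕ := Ultrafilter.of atTop with h𝒰
  have hz : Tendsto (fun n => ‖z n‖) 𝒰 atTop :=
    (tendsto_atTop_mono (fun n => (hzR n).le) tendsto_natCast_atTop_atTop).mono_left
      (Ultrafilter.of_le atTop)
  have h0 : (0 : ℂ) ∈ Elim f D 𝒰 z := by
    refine ⟨r, hr, ‖a‖ + δ, (hz.eventually_gt_atTop R).mono fun n hn v hv => ?_⟩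
    rcases h _ hn with h1 | h1
    · have h2 := h1 (z n + v) (by
        rw [mem_ball, dist_eq_norm, add_sub_cancel_left]; simpa using hv)
      have h6 : ‖f (z n + v)‖ ≤ ‖f (z n + v) - a‖ + ‖a‖ := norm_le_norm_sub_add _ _
      exact ⟨h2.1, by linarith [h2.2]⟩
    · have h2 := h1 _ (mem_ball_self hr) (hzD n)
      have := hza n
      linarith
  have hg := limit_mer hf hsa hz h0
  obtain ⟨-, e2, e3⟩ := Elim_pt hf h0
  simp only [add_zero] at e2 e3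
  have hg0 : glim f 𝒰 z 0 ≠ 0 := by
    intro h1
    have h2 : ‖glim f 𝒰 z 0 - a‖ ≤ δ₀ :=
      le_of_tendsto (e2.sub_const a).norm (Eventually.of_forall hza)
    rw [h1, zero_sub, norm_neg] at h2
    linarith
  have hd0 : deriv (glim f 𝒰 z) 0 ≠ 0 := by
    intro h1
    have h2 : ‖deriv (glim f 𝒰 z) 0 - a‖ ≤ ‖a‖ / 2 := by
      refine le_of_tendsto (e3.sub_const a).norm ?_
      filter_upwards [hz.eventually_gt_atTop R'] with n hn
      exact (h' _ (hzD n) hn).1 (by linarith [hza n])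
    rw [h1, zero_sub, norm_neg] at h2
    linarith
  have hbd : Bd (glim f 𝒰 z) (Elim f D 𝒰 z) K := by
    intro u hu
    obtain ⟨e4, e5, e6⟩ := Elim_pt hf hu
    refine le_of_tendsto_of_tendsto e6.norm (((e5.norm.pow 2).const_add 1).const_mul K) ?_
    filter_upwards [e4, far hz u R''] with n h1 h2
    exact hK _ h1 h2
  obtain ⟨hall, hexp⟩ := classify hg hK0 hbd ha hab (limit_sh hf hsa hz) (limit_sh hf hsb hz)
    h0 hg0 hd0
  set c := glim f 𝒰 z 0 with hcdef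
  have hexp' : glim f 𝒰 z = fun u => c * Complex.exp u := funext hexp
  have hder : ∀ u, deriv (glim f 𝒰 z) u = c * Complex.exp u := by
    intro u
    rw [hexp']
    exact ((Complex.hasDerivAt_exp u).const_mul c).deriv
  have hwt := ultra_pt 𝒰 (Eventually.of_forall hwL)
  set u := limUnder 𝒰 w with hu
  obtain ⟨ρ, hρ, f1, f2, f3, f4⟩ := Elim_conv hf (hall u)
  have hwb : ∀ᶠ n in (𝒰 : Filter ℕ), w n ∈ ball u ρ := hwt.eventually (ball_mem_nhds u hρ)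
  have hwt' : Tendsto w 𝒰 (𝓝[ball u ρ] u) := tendsto_nhdsWithin_iff.2 ⟨hwt, hwb⟩
  have g1 := f3.tendsto_comp (hg.an u (hall u)).continuousAt.continuousWithinAt
    (mem_ball_self hρ) hwt'
  have g2 := f4.tendsto_comp (hg.an u (hall u)).deriv.continuousAt.continuousWithinAt
    (mem_ball_self hρ) hwt'
  have g3 : Tendsto (fun n => f (z n) * Complex.exp (w n)) 𝒰 (𝓝 (c * Complex.exp u)) :=
    e2.mul hwt.cexp
  have g4 := (g1.sub g3).norm
  have g5 := (g2.sub g3).norm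
  rw [hexp u, sub_self, norm_zero] at g4
  rw [hder u, sub_self, norm_zero] at g5
  obtain ⟨n, n1, n2, n3, n4⟩ := (f1.and (hwb.and ((g4.eventually_lt_const hε).and
    (g5.eventually_lt_const hε)))).exists
  exact absurd (hw n (n1 _ n2) n3) (not_le.2 n4)

end Pool.Agent.H716Z.SL
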