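import Pool.Agent.H716Z.SL.Limit
import Pool.Agent.H716Z.SL.Barrier

set_option autoImplicit false
open Filter Topology Metric Bornology Set

namespace Pool.Agent.H716Z.SL

lemma chain_step {f : ℂ → ℂ} {D : Set ℂ} {a : ℂ} (hf : Mer f D) (ha : a ≠ 0) {z : ℂ}
    (hz : ‖f z - a‖ ≤ ‖a‖ / 20)
    (h : ∀ w : ℂ, ‖w‖ ≤ 10 → z + w ∈ D ∧ ‖f (z + w) - f z * Complex.exp w‖ < ‖a‖ / 100)
    {σ : ℂ} (hσ : σ = 1 ∨ σ = -1) :
    ∃ z' ∈ D, f z' = a ∧ ‖z' - z - σ * (2 * Real.pi * Complex.I)‖ ≤ 1 / 2 := by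
  have ha0 : 0 < ‖a‖ := norm_pos_iff.2 ha
  set w₁ : ℂ := σ * (2 * Real.pi * Complex.I) with hw₁
  have hn : ‖w₁‖ ≤ 8 := by
    have : ‖σ‖ = 1 := by rcases hσ with h | h <;> simp [h]
    rw [hw₁, norm_mul, this]
    simp only [one_mul, norm_mul, Complex.norm_ofNat, Complex.norm_real, Real.norm_eq_abs,
      abs_of_pos Real.pi_pos, Complex.norm_I, mul_one]
    linarith [Real.pi_lt_four]
  have he : Complex.exp w₁ = 1 := by
    rcases hσ with h | h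
    · rw [hw₁, h, one_mul, Complex.exp_two_pi_mul_I]
    · rw [hw₁, h, neg_one_mul, Complex.exp_neg, Complex.exp_two_pi_mul_I, inv_one]
  have hb : ∀ v ∈ ball (z + w₁) 1, v ∈ D ∧
      ‖f v - f z * Complex.exp (v - (z + w₁))‖ < ‖a‖ / 100 := by
    intro v hv
    rw [mem_ball, dist_eq_norm] at hv
    have h1 := h (w₁ + (v - (z + w₁))) ((norm_add_le _ _).trans (by linarith))
    rw [Complex.exp_add, he, one_mul, show z + (w₁ + (v - (z + w₁))) = v by ring] at h1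
    exact h1
  have hc := (hb _ (mem_ball_self one_pos)).2
  rw [sub_self, Complex.exp_zero, mul_one] at hc
  have hfz : 19 / 20 * ‖a‖ ≤ ‖f z‖ := by
    have h3 : ‖a‖ ≤ ‖a - f z‖ + ‖f z‖ := norm_le_norm_sub_add _ _
    rw [norm_sub_rev] at h3
    linarith
  have hs := loc_surj (g := f) (w := z + w₁) (r := 1) (ρ := 1 / 2) (ε := ‖a‖ / 5)
    (fun v hv => (hf.an v (hb v hv).1).differentiableAt.differentiableWithinAt)
    (by norm_num) (by norm_num) (by positivity) (fun v hv => by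
      have h1 := (hb v (sphere_subset_ball (by norm_num) hv)).2
      rw [mem_sphere, dist_eq_norm] at hv
      set x := v - (z + w₁) with hx
      have h2 := Complex.norm_exp_sub_one_sub_id_le (x := x) (by linarith)
      have h3 : ‖x‖ ≤ ‖Complex.exp x - 1‖ + ‖Complex.exp x - 1 - x‖ := by
        have := norm_sub_le (Complex.exp x - 1) (Complex.exp x - 1 - x)
        rwa [sub_sub_cancel] at this
      rw [hv] at h2 h3
      have h4 : 1 / 4 ≤ ‖Complex.exp x - 1‖ := by linarith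
      have h5 : 19 / 20 * ‖a‖ * (1 / 4) ≤ ‖f z * (Complex.exp x - 1)‖ := by
        rw [norm_mul]; gcongr
      have e : f z * (Complex.exp x - 1) =
          (f v - f (z + w₁)) - (f v - f z * Complex.exp x) + (f (z + w₁) - f z) := by ring
      have h6 : ‖f z * (Complex.exp x - 1)‖ ≤
          ‖f v - f (z + w₁)‖ + ‖f v - f z * Complex.exp x‖ + ‖f (z + w₁) - f z‖ := by
        rw [e]
        exact (norm_add_le _ _).trans (by gcongr; exact norm_sub_le _ _)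
      linarith)
  obtain ⟨z', hz1, hz2⟩ := hs (show a ∈ ball (f (z + w₁)) (‖a‖ / 5 / 2) by
    rw [mem_ball, dist_eq_norm]
    have h3 : ‖a - f (z + w₁)‖ ≤ ‖a - f z‖ + ‖f z - f (z + w₁)‖ :=
      norm_sub_le_norm_sub_add_norm_sub _ _ _
    rw [norm_sub_rev a (f z), norm_sub_rev (f z) (f (z + w₁))] at h3
    linarith)
  refine ⟨z', (hb z' (closedBall_subset_ball (by norm_num) hz1)).1, hz2, ?_⟩
  rw [mem_closedBall, dist_eq_norm] at hz1
  rwa [sub_sub]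

lemma exists_chain {f : ℂ → ℂ} {D : Set ℂ} {a : ℂ} (hf : Mer f D) (ha : a ≠ 0) {δ₀ : ℝ}
    (hδ : 0 < δ₀) (hδa : δ₀ ≤ ‖a‖ / 20) {R : ℝ}
    (h : ∀ z ∈ D, R < ‖z‖ → ‖f z - a‖ ≤ δ₀ → ∀ w : ℂ, ‖w‖ ≤ 10 → z + w ∈ D ∧
        ‖f (z + w) - f z * Complex.exp w‖ < ‖a‖ / 100)
    (hcw : ∀ R : ℝ, ∃ z ∈ D, R < ‖z‖ ∧ ‖f z - a‖ ≤ δ₀) :
    ∃ σ : ℂ, (σ = 1 ∨ σ = -1) ∧ ∃ u : ℕ → ℂ, 0 ≤ (u 0).im ∧
      (∀ j, ‖u (j + 1) - u j - 2 * Real.pi * Complex.I‖ ≤ 1 / 2) ∧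
      ∀ j, σ * u j ∈ D ∧ ‖f (σ * u j) - a‖ ≤ δ₀ := by
  obtain ⟨z₀, hz₀D, hz₀R, hz₀a⟩ := hcw (11 * R)
  obtain ⟨σ, hσ, hσ0⟩ : ∃ σ : ℂ, (σ = 1 ∨ σ = -1) ∧ 0 ≤ (σ * z₀).im := by
    rcases le_total 0 z₀.im with h1 | h1
    · exact ⟨1, Or.inl rfl, by simpa using h1⟩
    · exact ⟨-1, Or.inr rfl, by simpa using h1⟩
  have hσn : ‖σ‖ = 1 := by rcases hσ with h | h <;> simp [h]
  have hσσ : σ * σ = 1 := by rcases hσ with h | h <;> simp [h]
  let P : ℂ → Prop := fun x => σ * x ∈ D ∧ ‖f (σ * x) - a‖ ≤ δ₀ ∧ 0 ≤ x.im ∧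
    11 * R < 10 * |x.re| + x.im
  have hP0 : P (σ * z₀) := by
    refine ⟨by rw [← mul_assoc, hσσ, one_mul]; exact hz₀D,
      by rw [← mul_assoc, hσσ, one_mul]; exact hz₀a, hσ0, ?_⟩
    have h1 := Complex.norm_le_abs_re_add_abs_im (σ * z₀)
    rw [norm_mul, hσn, one_mul, abs_of_nonneg hσ0] at h1
    linarith [abs_nonneg (σ * z₀).re]
  have step : ∀ x, P x → ∃ x', P x' ∧ ‖x' - x - 2 * Real.pi * Complex.I‖ ≤ 1 / 2 := by
    rintro x ⟨h1, h2, h3, h4⟩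
    have h5 : R < ‖σ * x‖ := by
      rw [norm_mul, hσn, one_mul]
      linarith [Complex.abs_re_le_norm x, Complex.im_le_norm x]
    obtain ⟨z', hz1, hz2, hz3⟩ := chain_step hf ha (h2.trans hδa) (h _ h1 h5 h2) hσ
    have h6 : ‖σ * z' - x - 2 * Real.pi * Complex.I‖ ≤ 1 / 2 := by
      have e : σ * z' - x - 2 * Real.pi * Complex.I =
          σ * (z' - σ * x - σ * (2 * Real.pi * Complex.I)) := by
        linear_combination (x + 2 * Real.pi * Complex.I) * hσσ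
      rw [e, norm_mul, hσn, one_mul]
      exact hz3
    have h7 := (Complex.abs_re_le_norm _).trans h6
    have h8 := (Complex.abs_im_le_norm _).trans h6
    have e1 : (σ * z' - x - 2 * Real.pi * Complex.I).re = (σ * z').re - x.re := by simp
    have e2 : (σ * z' - x - 2 * Real.pi * Complex.I).im = (σ * z').im - x.im - 2 * Real.pi := by
      simp
    rw [e1] at h7
    rw [e2, abs_le] at h8
    have h9 := abs_sub_abs_le_abs_sub x.re (σ * z').re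
    rw [abs_sub_comm] at h9
    refine ⟨σ * z', ⟨by rw [← mul_assoc, hσσ, one_mul]; exact hz1, ?_, ?_, ?_⟩, h6⟩
    · rw [← mul_assoc, hσσ, one_mul, hz2, sub_self, norm_zero]; exact hδ.le
    · linarith [h8.1, Real.pi_gt_three]
    · linarith [h8.1, Real.pi_gt_three]
  choose! nxt hn1 hn2 using step
  have hall : ∀ j, P (nxt^[j] (σ * z₀)) := by
    intro j
    induction j with
    | zero => exact hP0
    | succ j ih => rw [Function.iterate_succ_apply']; exact hn1 _ ih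
  refine ⟨σ, hσ, fun j => nxt^[j] (σ * z₀), hσ0, fun j => ?_, fun j => ⟨(hall j).1, (hall j).2.1⟩⟩
  simp only [Function.iterate_succ_apply']
  exact hn2 _ (hall j)

lemma open_away {g : ℂ → ℂ} {D : Set ℂ} (hg : Mer g D) (a : ℂ) (δ : ℝ) :
    IsOpen {z | z ∈ D → δ < ‖g z - a‖} := by
  rw [isOpen_iff_mem_nhds]
  intro z hz
  by_cases hD : z ∈ D
  · have h1 : ∀ᶠ u in 𝓝 z, δ < ‖g u - a‖ :=
      continuousAt_const.eventually_lt
        ((hg.an z hD).continuousAt.sub continuousAt_const).norm (hz hD)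
    exact h1.mono fun u hu _ => hu
  · have h1 := hg.ev_large hD a δ
    rw [← nhdsNE_sup_pure]
    exact ⟨h1.mono fun u hu _ => hu, hz⟩

lemma closed_away {g : ℂ → ℂ} {D : Set ℂ} (hg : Mer g D) (a : ℂ) (δ : ℝ) :
    IsClosed {z | z ∈ D → δ ≤ ‖g z - a‖} := by
  rw [← isOpen_compl_iff, isOpen_iff_mem_nhds]
  intro z hz
  simp only [mem_compl_iff, mem_ofPred_eq, Classical.not_imp, not_le] at hz
  have h1 : ∀ᶠ u in 𝓝 z, ‖g u - a‖ < δ :=
    ((hg.an z hz.1).continuousAt.sub continuousAt_const).norm.eventually_lt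
      continuousAt_const hz.2
  filter_upwards [h1, hg.op.mem_nhds hz.1] with u hu1 hu2 hu3
  exact absurd (hu3 hu2) (not_le.2 hu1)

lemma close_of_inv {x y a : ℂ} {M η : ℝ} (hx : x ≠ a) (hy : y ≠ a) (hM : ‖x - a‖ ≤ M)
    (h : ‖(y - a)⁻¹ - (x - a)⁻¹‖ ≤ η) (hη : η * M ≤ 1 / 2) : ‖x - y‖ ≤ 2 * M ^ 2 * η := by
  have hx' : x - a ≠ 0 := sub_ne_zero.2 hx
  have hy' : y - a ≠ 0 := sub_ne_zero.2 hy
  have e : x - y = ((y - a)⁻¹ - (x - a)⁻¹) * (x - a) * (y - a) := by field_simp; ring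
  have hη0 : 0 ≤ η := (norm_nonneg _).trans h
  have hM0 : 0 ≤ M := (norm_nonneg _).trans hM
  have h1 : ‖x - y‖ ≤ η * M * ‖y - a‖ := by
    rw [e, norm_mul, norm_mul]; gcongr
  have h2 : ‖y - a‖ ≤ ‖y - x‖ + ‖x - a‖ := norm_sub_le_norm_sub_add_norm_sub _ _ _
  rw [norm_sub_rev y x] at h2
  have h3 : η * M * ‖y - a‖ ≤ η * M * (‖x - y‖ + M) :=
    mul_le_mul_of_nonneg_left (by linarith) (mul_nonneg hη0 hM0)
  have h4 : η * M * ‖x - y‖ ≤ 1 / 2 * ‖x - y‖ := mul_le_mul_of_nonneg_right hη (norm_nonneg _)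
  nlinarith

theorem main_fin {f : ℂ → ℂ} {D : Set ℂ} {a b : ℂ} (hf : Mer f D) (hf' : Mer (deriv f) D)
    (ha : a ≠ 0) (hab : a ≠ b) (hsa : ShI f D a) (hsb : ShI f D b)
    (hcw : ∀ δ > 0, ∀ R : ℝ, ∃ z ∈ D, R < ‖z‖ ∧ ‖f z - a‖ ≤ δ) :
    ∀ M : ℝ, ∀ ε > 0, ∃ R : ℝ, ∀ z ∈ D, R < ‖z‖ → (‖f z‖ ≤ M ∨ ‖deriv f z‖ ≤ M) →
      ‖f z - deriv f z‖ ≤ ε := by
  have ha0 : 0 < ‖a‖ := norm_pos_iff.2 ha
  obtain ⟨δ₀, hδ₀, hδa, hC⟩ := near_exp hf ha hab hsa hsb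
  obtain ⟨δ', hδ', R', h'⟩ := hsa δ₀ hδ₀
  set δ₁ : ℝ := min δ₀ (δ' / 2) with hδ₁
  have hδ1 : 0 < δ₁ := lt_min hδ₀ (by positivity)
  have hnear : ∀ z ∈ D, R' < ‖z‖ → (‖f z - a‖ ≤ δ₁ ∨ ‖deriv f z - a‖ ≤ δ₁) → ‖f z - a‖ ≤ δ₀ := by
    intro z hz hR h
    rcases h with h | h
    · exact h.trans (min_le_left _ _)
    · exact (h' z hz hR).2 (by linarith [min_le_right δ₀ (δ' / 2)])
  have hC2 : ∀ L : ℝ, ∀ ε > 0, ∃ R : ℝ, ∀ z ∈ D, R < ‖z‖ → ‖f z - a‖ ≤ δ₀ → ∀ v : ℂ,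
      ‖v - z‖ ≤ L → v ∈ D ∧ ‖f v - deriv f v‖ ≤ ε := by
    intro L ε hε
    obtain ⟨R, hR⟩ := hC L (ε / 2) (by positivity)
    refine ⟨R, fun z hz h1 h2 v hv => ?_⟩
    obtain ⟨h3, h4, h5⟩ := hR z hz h1 h2 (v - z) hv
    rw [add_sub_cancel] at h3 h4 h5
    refine ⟨h3, ?_⟩
    have h6 : ‖f v - deriv f v‖ ≤ ‖f v - f z * Complex.exp (v - z)‖ +
        ‖f z * Complex.exp (v - z) - deriv f v‖ := norm_sub_le_norm_sub_add_norm_sub _ _ _
    rw [norm_sub_rev (f z * Complex.exp (v - z)) (deriv f v)] at h6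
    linarith
  obtain ⟨R₁, hR₁⟩ := hC 10 (‖a‖ / 100) (by positivity)
  obtain ⟨σ, hσ, u, hu0, hu1, hu2⟩ := exists_chain hf ha hδ₀ hδa (R := R₁)
    (fun z hz h1 h2 w hw => ⟨(hR₁ z hz h1 h2 w hw).1, (hR₁ z hz h1 h2 w hw).2.1⟩) (hcw δ₀ hδ₀)
  have hσn : ‖σ‖ = 1 := by rcases hσ with h | h <;> simp [h]
  have hσσ : σ * σ = 1 := by rcases hσ with h | h <;> simp [h]
  obtain ⟨ξ, hξ, R₀, hcur⟩ := exists_curve u hu0 hu1
  set Θ : ℂ → ℂ := fun z => rinv (deriv f) D a z - rinv f D a z with hΘ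
  set O : Set ℂ := {z | z ∈ D → δ₁ < ‖f z - a‖} ∩ {z | z ∈ D → δ₁ < ‖deriv f z - a‖} with hO
  set O' : Set ℂ := {z | z ∈ D → δ₁ ≤ ‖f z - a‖} ∩ {z | z ∈ D → δ₁ ≤ ‖deriv f z - a‖} with hO'
  have hOo : IsOpen O := (open_away hf a δ₁).inter (open_away hf' a δ₁)
  have hOc : IsClosed O' := (closed_away hf a δ₁).inter (closed_away hf' a δ₁)
  have hOO : O ⊆ O' := fun z hz => ⟨fun h => (hz.1 h).le, fun h => (hz.2 h).le⟩
  have hΘd : ∀ z ∈ O', DifferentiableAt ℂ Θ z := fun z hz =>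
    ((hf'.rinv_an fun h => ne_of_le_norm hδ1 (hz.2 h)).sub
      (hf.rinv_an fun h => ne_of_le_norm hδ1 (hz.1 h))).differentiableAt
  have hΘM : ∀ z ∈ O', ‖Θ z‖ ≤ 2 * δ₁⁻¹ := fun z hz => by
    have h1 := norm_rinv_le hδ1 hz.1
    have h2 := norm_rinv_le hδ1 hz.2
    have h3 := norm_sub_le (rinv (deriv f) D a z) (rinv f D a z)
    linarith
  have hΘs : ∀ z ∈ O', z ∈ D → ∀ ε, ‖f z - deriv f z‖ ≤ ε * δ₁ ^ 2 → ‖Θ z‖ ≤ ε := by
    intro z hz hD ε h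
    have h1 := hz.1 hD
    have h2 := hz.2 hD
    have n1 : f z - a ≠ 0 := sub_ne_zero.2 (ne_of_le_norm hδ1 h1)
    have n2 : deriv f z - a ≠ 0 := sub_ne_zero.2 (ne_of_le_norm hδ1 h2)
    have e : Θ z = (f z - deriv f z) / ((f z - a) * (deriv f z - a)) := by
      simp only [hΘ, rinv_of_mem hD]
      field_simp
      ring
    have hε : 0 ≤ ε := by
      by_contra hc
      have := mul_neg_of_neg_of_pos (not_le.1 hc) (pow_pos hδ1 2)
      linarith [norm_nonneg (f z - deriv f z)]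
    rw [e, norm_div, norm_mul, div_le_iff₀ (mul_pos (hδ1.trans_le h1) (hδ1.trans_le h2))]
    refine h.trans (mul_le_mul_of_nonneg_left ?_ hε)
    rw [pow_two]
    exact mul_le_mul h1 h2 hδ1.le (norm_nonneg _)
  have hnO : ∀ z, z ∉ O → z ∈ D ∧ (‖f z - a‖ ≤ δ₁ ∨ ‖deriv f z - a‖ ≤ δ₁) := by
    intro z hz
    by_cases hD : z ∈ D
    · refine ⟨hD, ?_⟩
      by_contra hc
      push Not at hc
      exact hz ⟨fun _ => hc.1, fun _ => hc.2⟩
    · exact absurd ⟨fun h => absurd h hD, fun h => absurd h hD⟩ hz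
  have hcσ : Continuous fun z : ℂ => σ * z := by fun_prop
  have hbar := barrier (Θ := fun z => Θ (σ * z)) (O := (fun z => σ * z) ⁻¹' O)
    (O' := (fun z => σ * z) ⁻¹' O') (hOo.preimage hcσ) (hOc.preimage hcσ)
    (preimage_mono hOO)
    (fun z hz => (hΘd _ hz).comp z ((differentiableAt_const σ).mul differentiableAt_id))
    (M := 2 * δ₁⁻¹) (by positivity) (fun z hz => hΘM _ hz) hξ (by
      intro ε hε
      obtain ⟨R, hR⟩ := hC2 14 (ε * δ₁ ^ 2) (by positivity)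
      refine ⟨max (max R' R₀) (R + 14), fun z hz hzR hcase => ?_⟩
      have r1 : R' < ‖z‖ := lt_of_le_of_lt ((le_max_left _ _).trans (le_max_left _ _)) hzR
      have r2 : R₀ < ‖z‖ := lt_of_le_of_lt ((le_max_right _ _).trans (le_max_left _ _)) hzR
      have r3 : R + 14 < ‖z‖ := lt_of_le_of_lt (le_max_right _ _) hzR
      have hn : ‖σ * z‖ = ‖z‖ := by rw [norm_mul, hσn, one_mul]
      rcases hcase with h | h
      · obtain ⟨h1, h2⟩ := hnO _ h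
        have h3 := hR _ h1 (by rw [hn]; linarith) (hnear _ h1 (by rw [hn]; exact r1) h2) (σ * z)
          (by simp)
        exact hΘs _ hz h1 ε h3.2
      · obtain ⟨j, hj⟩ := hcur z r2 h.1 h.2
        have h4 : ‖z‖ ≤ ‖z - u j‖ + ‖u j‖ := norm_le_norm_sub_add _ _
        have h3 := hR _ (hu2 j).1 (by rw [norm_mul, hσn, one_mul]; linarith) (hu2 j).2 (σ * z)
          (by rw [← mul_sub, norm_mul, hσn, one_mul]; exact hj)
        exact hΘs _ hz h3.1 ε h3.2)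
  intro M ε hε
  set M' : ℝ := |M| + ‖a‖ with hM'
  have hM0 : 0 < M' := by positivity
  set η : ℝ := min (1 / (2 * M')) (ε / (2 * M' ^ 2)) with hη
  have hη0 : 0 < η := lt_min (by positivity) (by positivity)
  have hη1 : η * M' ≤ 1 / 2 := by
    calc η * M' ≤ 1 / (2 * M') * M' := by gcongr; exact min_le_left _ _
      _ = 1 / 2 := by field_simp
  have hη2 : 2 * M' ^ 2 * η ≤ ε := by
    calc 2 * M' ^ 2 * η ≤ 2 * M' ^ 2 * (ε / (2 * M' ^ 2)) := by gcongr; exact min_le_right _ _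
      _ = ε := by field_simp
  obtain ⟨R₂, hR₂⟩ := hbar η hη0
  obtain ⟨R₃, hR₃⟩ := hC2 0 ε hε
  refine ⟨max (max R' R₂) R₃, fun z hz hzR hM => ?_⟩
  have r1 : R' < ‖z‖ := lt_of_le_of_lt ((le_max_left _ _).trans (le_max_left _ _)) hzR
  have r2 : R₂ < ‖z‖ := lt_of_le_of_lt ((le_max_right _ _).trans (le_max_left _ _)) hzR
  have r3 : R₃ < ‖z‖ := lt_of_le_of_lt (le_max_right _ _) hzR
  by_cases hzO : z ∈ O
  · have e : σ * (σ * z) = z := by rw [← mul_assoc, hσσ, one_mul]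
    have h1 := hR₂ (σ * z) (by rw [mem_preimage, e]; exact hOO hzO)
      (by rw [norm_mul, hσn, one_mul]; exact r2)
    simp only [e, hΘ, rinv_of_mem hz] at h1
    have n1 : f z ≠ a := ne_of_le_norm hδ1 (hzO.1 hz).le
    have n2 : deriv f z ≠ a := ne_of_le_norm hδ1 (hzO.2 hz).le
    rcases hM with h | h
    · refine (close_of_inv n1 n2 (M := M') ?_ h1 hη1).trans hη2
      linarith [norm_sub_le (f z) a, le_abs_self M]
    · rw [norm_sub_rev] at h1 ⊢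
      refine (close_of_inv n2 n1 (M := M') ?_ h1 hη1).trans hη2
      linarith [norm_sub_le (deriv f z) a, le_abs_self M]
  · exact (hR₃ z hz r3 (hnear z hz r1 (hnO z hzO).2) z (by simp)).2

end Pool.Agent.H716Z.SL
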